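import Pool.Agent.H104.AKN.ListPoly

/-!
# A faster check of positive semidefiniteness

`checkPSD2 c G L`: `c G` minus the outer squares of the rows of `L` is diagonally dominant.
-/

namespace Pool.Agent.H105.AKN

open Finset Pool.Agent.H104.AKN

/-- the sum of the absolute values -/
def absSum (r : List ℤ) : ℕ := (r.map Int.natAbs).sum

/-- rows are dominated by twice the diagonal entry (`i` is the number of the first row) -/
def rowDom : ℕ → List (List ℤ) → Bool
  | _, [] => true
  | i, r :: E => decide ((absSum r : ℤ) ≤ 2 * r.getD i 0) && rowDom (i + 1) E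

/-- the matrix is square and symmetric -/
def symM (E : List (List ℤ)) : Bool :=
  (List.range E.length).all (fun i => (E.getD i []).length ≤ E.length &&
    (List.range i).all (fun j => (E.getD i []).getD j 0 == (E.getD j []).getD i 0))

/-- entry of a matrix -/
def ent (E : List (List ℤ)) (i j : ℕ) : ℤ := (E.getD i []).getD j 0

lemma dot_eq_sum : ∀ (l : List ℤ) (x : List ℝ) (n : ℕ), l.length ≤ n →
    dot l x = ∑ j ∈ range n, ((l.getD j 0 : ℤ) : ℝ) * x.getD j 0
  | [], x, n, _ => by simp [dot]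
  | a :: l, [], n, _ => by simp [dot]
  | a :: l, y :: x, 0, h => by simp at h
  | a :: l, y :: x, n + 1, h => by
    rw [Finset.sum_range_succ', dot, dot_eq_sum l x n (by simpa using h)]
    simp only [List.getD_cons_succ, List.getD_cons_zero]
    ring

lemma qf_eq_sum : ∀ (G : List (List ℤ)) (x y : List ℝ) (n m : ℕ), G.length ≤ m →
    (∀ r ∈ G, r.length ≤ n) →
    qf G x y = ∑ i ∈ range m, ∑ j ∈ range n, (ent G i j : ℝ) * x.getD j 0 * y.getD i 0
  | [], x, y, n, m, _, _ => by simp [qf, ent]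
  | g :: G, x, [], n, m, _, _ => by simp [qf]
  | g :: G, x, y :: ys, n, 0, h, _ => by simp at h
  | g :: G, x, y :: ys, n, m + 1, h, h2 => by
    rw [Finset.sum_range_succ', qf, qf_eq_sum G x ys n m (by simpa using h)
      (fun r hr => h2 r (List.mem_cons_of_mem _ hr)),
      dot_eq_sum g x n (h2 g (List.mem_cons_self ..))]
    simp only [ent, List.getD_cons_succ, List.getD_cons_zero]
    rw [Finset.mul_sum, add_comm]
    congr 1
    apply Finset.sum_congr rfl
    intro j _
    ring

lemma absSum_eq : ∀ (r : List ℤ) (n : ℕ), r.length ≤ n →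
    (absSum r : ℝ) = ∑ j ∈ range n, |((r.getD j 0 : ℤ) : ℝ)|
  | [], n, _ => by simp [absSum]
  | a :: r, 0, h => by simp at h
  | a :: r, n + 1, h => by
    rw [Finset.sum_range_succ']
    have ih := absSum_eq r n (by simpa using h)
    simp only [absSum, List.map_cons, List.sum_cons, Nat.cast_add, List.getD_cons_succ,
      List.getD_cons_zero] at ih ⊢
    rw [ih, add_comm]
    congr 1
    rw [Nat.cast_natAbs, Int.cast_abs]

lemma rowDom_spec : ∀ (i : ℕ) (E : List (List ℤ)), rowDom i E = true → ∀ k < E.length,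
    (absSum (E.getD k []) : ℤ) ≤ 2 * (E.getD k []).getD (i + k) 0
  | _, [], _, k, hk => by simp at hk
  | i, r :: E, h, 0, _ => by
    simp only [rowDom, Bool.and_eq_true, decide_eq_true_eq] at h
    simpa using h.1
  | i, r :: E, h, k + 1, hk => by
    simp only [rowDom, Bool.and_eq_true, decide_eq_true_eq] at h
    have := rowDom_spec (i + 1) E h.2 k (by simpa using hk)
    rw [List.getD_cons_succ]
    rwa [show i + (k + 1) = i + 1 + k by ring]

/-- the check -/
def checkPSD2 (c : ℕ) (G L : List (List ℤ)) : Bool :=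
  decide (0 < c) &&
  (fun E : List (List ℤ) => symM E && rowDom 0 E)
    (addM (smulM c G) (smulM (-1) (sumOuter (L.map (fun r => ((1 : ℕ), r))))))

lemma qf_nonneg_of_dom (E : List (List ℤ)) (hs : symM E = true) (hd : rowDom 0 E = true)
    (x : List ℝ) : 0 ≤ qf E x x := by
  set n := E.length with hn
  simp only [symM, List.all_eq_true, List.mem_range, Bool.and_eq_true, decide_eq_true_eq,
    beq_iff_eq] at hs
  have hlen : ∀ r ∈ E, r.length ≤ n := by
    intro r hr
    obtain ⟨i, hi, rfl⟩ := List.getElem_of_mem hr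
    have := (hs i hi).1
    rwa [List.getD_eq_getElem _ _ hi] at this
  have hlen' : ∀ i, (E.getD i []).length ≤ n := by
    intro i
    by_cases hi : i < E.length
    · exact (hs i hi).1
    · rw [List.getD_eq_default _ _ (by omega)]; simp
  have hsym : ∀ i < n, ∀ j < n, ent E i j = ent E j i := by
    intro i hi j hj
    rcases lt_trichotomy i j with h | h | h
    · exact ((hs j hj).2 i h).symm
    · rw [h]
    · exact (hs i hi).2 j h
  rw [qf_eq_sum E x x n n le_rfl hlen]
  have hrow : ∀ i < n, ∑ j ∈ range n, |(ent E i j : ℝ)| ≤ 2 * (ent E i i : ℝ) := by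
    intro i hi
    have h1 := rowDom_spec 0 E hd i hi
    rw [zero_add] at h1
    have h2 := absSum_eq (E.getD i []) n (hlen' i)
    unfold ent
    rw [← h2]
    exact_mod_cast h1
  -- `2 qf ≥ ∑ (2 E_ii) x_i^2 + ...`
  have key : ∀ i ∈ range n, ∀ j ∈ range n,
      (if i = j then 2 * ((ent E i j : ℝ) * x.getD i 0 ^ 2) else 0) -
        |(ent E i j : ℝ)| * (x.getD i 0 ^ 2 + x.getD j 0 ^ 2) / 2 ≤
      (ent E i j : ℝ) * x.getD j 0 * x.getD i 0 := by
    intro i _ j _
    by_cases hij : i = j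
    · subst hij
      rw [if_pos rfl]
      have h1 : (ent E i i : ℝ) ≤ |(ent E i i : ℝ)| := le_abs_self _
      nlinarith [mul_le_mul_of_nonneg_right h1 (sq_nonneg (x.getD i 0))]
    · rw [if_neg hij]
      have h1 := neg_abs_le ((ent E i j : ℝ) * x.getD j 0 * x.getD i 0)
      have h2 : |(ent E i j : ℝ) * x.getD j 0 * x.getD i 0| =
          |(ent E i j : ℝ)| * (|x.getD j 0| * |x.getD i 0|) := by
        rw [abs_mul, abs_mul, mul_assoc]
      have h3 : |x.getD j 0| * |x.getD i 0| ≤ (x.getD i 0 ^ 2 + x.getD j 0 ^ 2) / 2 := by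
        nlinarith [sq_nonneg (|x.getD j 0| - |x.getD i 0|), sq_abs (x.getD j 0),
          sq_abs (x.getD i 0)]
      have h4 := mul_le_mul_of_nonneg_left h3 (abs_nonneg (ent E i j : ℝ))
      linarith
  have h5 : ∑ i ∈ range n, ∑ j ∈ range n,
      ((if i = j then 2 * ((ent E i j : ℝ) * x.getD i 0 ^ 2) else 0) -
        |(ent E i j : ℝ)| * (x.getD i 0 ^ 2 + x.getD j 0 ^ 2) / 2) ≤
      ∑ i ∈ range n, ∑ j ∈ range n, (ent E i j : ℝ) * x.getD j 0 * x.getD i 0 :=
    Finset.sum_le_sum fun i hi => Finset.sum_le_sum fun j hj => key i hi j hj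
  refine le_trans ?_ h5
  have e1 : ∑ i ∈ range n, ∑ j ∈ range n,
      ((if i = j then 2 * ((ent E i j : ℝ) * x.getD i 0 ^ 2) else 0) -
        |(ent E i j : ℝ)| * (x.getD i 0 ^ 2 + x.getD j 0 ^ 2) / 2) =
      ∑ i ∈ range n, (2 * (ent E i i : ℝ) - ∑ j ∈ range n, |(ent E i j : ℝ)|) * x.getD i 0 ^ 2 := by
    have a1 : ∑ i ∈ range n, ∑ j ∈ range n,
        (if i = j then 2 * ((ent E i j : ℝ) * x.getD i 0 ^ 2) else 0) =
        ∑ i ∈ range n, 2 * (ent E i i : ℝ) * x.getD i 0 ^ 2 := by
      apply Finset.sum_congr rfl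
      intro i hi
      rw [Finset.sum_ite_eq, if_pos hi]
      ring
    have a2 : ∑ i ∈ range n, ∑ j ∈ range n, |(ent E i j : ℝ)| * x.getD j 0 ^ 2 =
        ∑ i ∈ range n, ∑ j ∈ range n, |(ent E i j : ℝ)| * x.getD i 0 ^ 2 := by
      rw [Finset.sum_comm]
      apply Finset.sum_congr rfl
      intro i hi
      apply Finset.sum_congr rfl
      intro j hj
      rw [Finset.mem_range] at hi hj
      rw [hsym j hj i hi]
    have a3 : ∑ i ∈ range n, ∑ j ∈ range n,
        |(ent E i j : ℝ)| * (x.getD i 0 ^ 2 + x.getD j 0 ^ 2) / 2 =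
        ∑ i ∈ range n, ∑ j ∈ range n, |(ent E i j : ℝ)| * x.getD i 0 ^ 2 := by
      have : ∀ i ∈ range n, ∀ j ∈ range n,
          |(ent E i j : ℝ)| * (x.getD i 0 ^ 2 + x.getD j 0 ^ 2) / 2 =
          |(ent E i j : ℝ)| * x.getD i 0 ^ 2 / 2 + |(ent E i j : ℝ)| * x.getD j 0 ^ 2 / 2 := by
        intro i _ j _; ring
      rw [Finset.sum_congr rfl fun i hi => Finset.sum_congr rfl fun j hj => this i hi j hj]
      simp only [Finset.sum_add_distrib, ← Finset.sum_div]
      rw [a2]; ring
    simp only [Finset.sum_sub_distrib]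
    rw [a1, a3]
    simp only [sub_mul, Finset.sum_sub_distrib, Finset.sum_mul]
  rw [e1]
  apply Finset.sum_nonneg
  intro i hi
  rw [Finset.mem_range] at hi
  have := hrow i hi
  exact mul_nonneg (by linarith) (sq_nonneg _)

lemma qf_nonneg_of_check2 (c : ℕ) (G L : List (List ℤ)) (h : checkPSD2 c G L = true)
    (x : List ℝ) : 0 ≤ qf G x x := by
  simp only [checkPSD2, Bool.and_eq_true, decide_eq_true_eq] at h
  obtain ⟨hc, hs, hd⟩ := h
  have h1 := qf_nonneg_of_dom _ hs hd x
  rw [qf_add, qf_smul, qf_smul] at h1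
  have h2 := qf_sumOuter_nonneg (L.map (fun r => ((1 : ℕ), r))) x
  have hc' : (0 : ℝ) < ((c : ℤ) : ℝ) := by exact_mod_cast hc
  push_cast at h1
  have h3 : (0 : ℝ) ≤ ((c : ℤ) : ℝ) * qf G x x := by
    push_cast
    linarith
  exact nonneg_of_mul_nonneg_right h3 hc'

end Pool.Agent.H105.AKN
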