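import Pool.Agent.H105.AKN.Dec
import Pool.Agent.H105.AKN.Psd2

/-!
# A check of positive semidefiniteness with packed rows

The rows of the matrices are packed into single integers (Kronecker substitution), so that the
check needs `O(n^2)` operations with integers. `checkPSD3 B M s ε G L`: the matrix
`G - Lᵀ L - s` has entries of absolute value at most `ε`, and `n ε ≤ s`.
-/

namespace Pool.Agent.H105.AKN

open Finset Pool.Agent.H104.AKN

/-- a row packed into an integer -/
def pk (B : ℤ) : List ℤ → ℤ
  | [] => 0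
  | a :: l => a + B * pk B l

/-- the packed rows of `Lᵀ L` -/
def comb (B : ℤ) : List (List ℤ) → List ℤ
  | [] => []
  | r :: L => forceZ (pk B r) (fun p => add1 (smul1 p r) (comb B L))

/-- the digits of `y` in base `B` are at most `m`, and there are at most `n` of them -/
def dig (B m : ℕ) : ℕ → ℕ → Bool
  | 0, y => y == 0
  | n + 1, y => forceN y (fun y => Nat.ble (y % B) m && dig B m n (y / B))

/-- the rows -/
def rowsOk (B : ℤ) (Bn m n : ℕ) (off s : ℤ) : ℤ → List (List ℤ) → List ℤ → Bool
  | _, [], _ => true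
  | Bi, g :: G, q =>
    (match pk B g - q.headD 0 - s * Bi + off with
      | Int.ofNat y => dig Bn m n y
      | Int.negSucc _ => false) && forceZ (B * Bi) (fun Bi => rowsOk B Bn m n off s Bi G q.tail)

/-- entries of absolute value at most `M`, rows of length `n` -/
def entOk (M n : ℕ) (L : List (List ℤ)) : Bool :=
  L.all (fun r => Nat.beq r.length n && r.all (fun a => Nat.ble a.natAbs M))

/-- the check -/
def checkPSD3 (b MG ML s ε : ℕ) (G L : List (List ℤ)) : Bool :=
  entOk MG G.length G && entOk ML G.length L && Nat.ble (G.length * ε) s &&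
  Nat.ble (MG + L.length * (ML * ML) + s + ε + 1) (2 ^ b) &&
  forceZ (pk ((2 ^ b : ℕ) : ℤ) (List.replicate G.length (ε : ℤ))) (fun off =>
    rowsOk ((2 ^ b : ℕ) : ℤ) (2 ^ b) (2 * ε) G.length off s 1 G (comb ((2 ^ b : ℕ) : ℤ) L))

/-! ### soundness -/

lemma kron (B : ℤ) : ∀ (n : ℕ) (a : ℕ → ℤ), (∀ j < n, |a j| < B) →
    ∑ j ∈ range n, a j * B ^ j = 0 → ∀ j < n, a j = 0
  | 0, _, _, _, j, hj => by omega
  | n + 1, a, hB, h, j, hj => by
    have hB0 : 0 < B := lt_of_le_of_lt (abs_nonneg _) (hB 0 (by omega))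
    rw [Finset.sum_range_succ'] at h
    have e : ∑ k ∈ range n, a (k + 1) * B ^ (k + 1) = B * ∑ k ∈ range n, a (k + 1) * B ^ k := by
      rw [Finset.mul_sum]
      apply Finset.sum_congr rfl
      intro k _
      ring
    rw [e, pow_zero, mul_one] at h
    have h0 : a 0 = 0 := by
      have hd : B ∣ a 0 := ⟨-∑ k ∈ range n, a (k + 1) * B ^ k, by linarith⟩
      exact Int.eq_zero_of_abs_lt_dvd hd (hB 0 (by omega))
    rw [h0, add_zero] at h
    have h1 : ∑ k ∈ range n, a (k + 1) * B ^ k = 0 := by
      rcases mul_eq_zero.mp h with h | h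
      · omega
      · exact h
    rcases j with _ | j
    · exact h0
    · exact kron B n (fun k => a (k + 1)) (fun k hk => hB (k + 1) (by omega)) h1 j (by omega)

lemma pk_eq (B : ℤ) : ∀ (l : List ℤ) (n : ℕ), l.length ≤ n →
    pk B l = ∑ j ∈ range n, l.getD j 0 * B ^ j
  | [], n, _ => by simp [pk]
  | a :: l, 0, h => by simp at h
  | a :: l, n + 1, h => by
    rw [Finset.sum_range_succ', pk, pk_eq B l n (by simpa using h)]
    simp only [List.getD_cons_succ, List.getD_cons_zero, pow_zero, mul_one]
    rw [Finset.mul_sum, add_comm]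
    congr 1
    apply Finset.sum_congr rfl
    intro j _
    ring

lemma getD_add1 : ∀ (l m : List ℤ) (i : ℕ),
    (add1 l m).getD i 0 = l.getD i 0 + m.getD i 0
  | [], m, i => by simp [add1, ladd]
  | a :: l, [], i => by simp [add1, ladd]
  | a :: l, b :: m, 0 => by simp [add1, ladd]
  | a :: l, b :: m, i + 1 => by
    have := getD_add1 l m i
    simp only [add1] at this
    simp only [add1, ladd, List.getD_cons_succ, this]

lemma getD_smul1 (c : ℤ) : ∀ (l : List ℤ) (i : ℕ), (smul1 c l).getD i 0 = c * l.getD i 0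
  | [], i => by simp [smul1]
  | a :: l, 0 => by simp [smul1]
  | a :: l, i + 1 => by
    have := getD_smul1 c l i
    simp only [smul1] at this
    simp only [smul1, List.map_cons, List.getD_cons_succ, this]

lemma comb_eq (B : ℤ) (n : ℕ) : ∀ (L : List (List ℤ)), (∀ r ∈ L, r.length ≤ n) → ∀ i,
    (comb B L).getD i 0 = ∑ j ∈ range n,
      (∑ k ∈ range L.length, ent L k i * ent L k j) * B ^ j
  | [], _, i => by simp [comb]
  | r :: L, h, i => by
    rw [comb, forceZ_eq, getD_add1, getD_smul1, comb_eq B n L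
      (fun r hr => h r (List.mem_cons_of_mem _ hr)), pk_eq B r n (h r (List.mem_cons_self ..)),
      Finset.sum_mul, ← Finset.sum_add_distrib]
    apply Finset.sum_congr rfl
    intro j _
    rw [List.length_cons, Finset.sum_range_succ']
    simp only [ent, List.getD_cons_succ, List.getD_cons_zero]
    ring

lemma dig_spec (B m : ℕ) : ∀ (n y : ℕ), dig B m n y = true →
    ∃ d : ℕ → ℕ, (∀ j, d j ≤ m) ∧ (y : ℤ) = ∑ j ∈ range n, (d j : ℤ) * (B : ℤ) ^ j
  | 0, y, h => by
    refine ⟨fun _ => 0, fun _ => Nat.zero_le _, ?_⟩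
    simp only [dig, beq_iff_eq] at h
    simp [h]
  | n + 1, y, h => by
    simp only [dig, forceN_eq, Bool.and_eq_true] at h
    obtain ⟨d, hd, e⟩ := dig_spec B m n (y / B) h.2
    refine ⟨fun j => if j = 0 then y % B else d (j - 1), ?_, ?_⟩
    · intro j
      dsimp only
      split_ifs
      · exact Nat.le_of_ble_eq_true h.1
      · exact hd _
    · rw [Finset.sum_range_succ']
      simp only [Nat.add_eq_zero_iff, one_ne_zero, and_false, if_false, Nat.add_sub_cancel,
        if_true, pow_zero, mul_one]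
      have e2 : ∑ k ∈ range n, (d k : ℤ) * (B : ℤ) ^ (k + 1) =
          B * ∑ k ∈ range n, (d k : ℤ) * (B : ℤ) ^ k := by
        rw [Finset.mul_sum]
        apply Finset.sum_congr rfl
        intro k _
        ring
      rw [e2, ← e]
      have := Nat.div_add_mod y B
      exact_mod_cast this.symm

lemma rowsOk_spec (B : ℤ) (Bn m n : ℕ) (off s : ℤ) : ∀ (G : List (List ℤ)) (Bi : ℤ) (q : List ℤ),
    rowsOk B Bn m n off s Bi G q = true → ∀ i < G.length, ∃ y : ℕ, dig Bn m n y = true ∧
      (y : ℤ) = pk B (G.getD i []) - q.getD i 0 - s * (B ^ i * Bi) + off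
  | [], _, _, _, i, hi => by simp at hi
  | g :: G, Bi, q, h, i, hi => by
    simp only [rowsOk, Bool.and_eq_true, forceZ_eq] at h
    rcases i with _ | i
    · have h1 := h.1
      split at h1
      · rename_i y hy
        refine ⟨y, h1, ?_⟩
        rw [List.getD_cons_zero, pow_zero, one_mul]
        have e : q.headD 0 = q.getD 0 0 := by cases q <;> rfl
        rw [← e, hy]
        rfl
      · simp at h1
    · obtain ⟨y, h2, h3⟩ := rowsOk_spec B Bn m n off s G (B * Bi) q.tail h.2 i
        (by simpa using hi)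
      refine ⟨y, h2, ?_⟩
      rw [List.getD_cons_succ, h3]
      have e : q.tail.getD i 0 = q.getD (i + 1) 0 := by cases q <;> simp
      rw [e]
      ring

lemma entOk_spec (M n : ℕ) (L : List (List ℤ)) (h : entOk M n L = true) :
    (∀ r ∈ L, r.length = n) ∧ ∀ i j, |ent L i j| ≤ M := by
  simp only [entOk, List.all_eq_true, Bool.and_eq_true] at h
  refine ⟨fun r hr => Nat.eq_of_beq_eq_true (h r hr).1, fun i j => ?_⟩
  by_cases hi : i < L.length
  · have hr := List.getElem_mem hi
    have e : L.getD i [] = L[i] := List.getD_eq_getElem _ _ hi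
    simp only [ent, e]
    by_cases hj : j < (L[i]).length
    · rw [List.getD_eq_getElem _ _ hj]
      have := Nat.le_of_ble_eq_true ((h _ hr).2 _ (List.getElem_mem hj))
      rw [Int.abs_eq_natAbs]
      exact_mod_cast this
    · rw [List.getD_eq_default _ _ (by omega)]
      simp
  · have e : L.getD i [] = [] := List.getD_eq_default _ _ (by omega)
    simp only [ent, e]
    simp

lemma sum_sq_ge {n : ℕ} (D : ℕ → ℕ → ℝ) (ε : ℝ) (hε : 0 ≤ ε)
    (hD : ∀ i < n, ∀ j < n, |D i j| ≤ ε) (x : ℕ → ℝ) :
    -(n * ε * ∑ i ∈ range n, x i ^ 2) ≤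
      ∑ i ∈ range n, ∑ j ∈ range n, D i j * x j * x i := by
  have h1 : ∀ i ∈ range n, ∀ j ∈ range n,
      -(ε * (x i ^ 2 + x j ^ 2) / 2) ≤ D i j * x j * x i := by
    intro i hi j hj
    rw [mem_range] at hi hj
    have h2 := hD i hi j hj
    have h3 := neg_abs_le (D i j * x j * x i)
    have h4 : |D i j * x j * x i| = |D i j| * (|x j| * |x i|) := by
      rw [abs_mul, abs_mul, mul_assoc]
    have h5 : |x j| * |x i| ≤ (x i ^ 2 + x j ^ 2) / 2 := by
      nlinarith [sq_nonneg (|x j| - |x i|), sq_abs (x j), sq_abs (x i)]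
    have h6 : |D i j| * (|x j| * |x i|) ≤ ε * ((x i ^ 2 + x j ^ 2) / 2) :=
      mul_le_mul h2 h5 (by positivity) hε
    linarith
  have h7 : ∑ i ∈ range n, ∑ j ∈ range n, -(ε * (x i ^ 2 + x j ^ 2) / 2) ≤
      ∑ i ∈ range n, ∑ j ∈ range n, D i j * x j * x i :=
    Finset.sum_le_sum fun i hi => Finset.sum_le_sum fun j hj => h1 i hi j hj
  refine le_trans (le_of_eq ?_) h7
  have h8 : ∀ i ∈ range n, ∑ j ∈ range n, -(ε * (x i ^ 2 + x j ^ 2) / 2) =
      -(ε * n / 2) * x i ^ 2 - ε / 2 * ∑ j ∈ range n, x j ^ 2 := by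
    intro i _
    rw [Finset.mul_sum]
    have : ∀ j ∈ range n, -(ε * (x i ^ 2 + x j ^ 2) / 2) = -(ε / 2 * x i ^ 2) - ε / 2 * x j ^ 2 :=
      fun j _ => by ring
    rw [Finset.sum_congr rfl this, Finset.sum_sub_distrib, Finset.sum_const, card_range,
      nsmul_eq_mul]
    ring
  rw [Finset.sum_congr rfl h8, Finset.sum_sub_distrib, ← Finset.mul_sum, Finset.sum_const,
    card_range, nsmul_eq_mul]
  ring

theorem qf_nonneg_of_check3 (b MG ML s ε : ℕ) (G L : List (List ℤ))
    (h : checkPSD3 b MG ML s ε G L = true) (x : List ℝ) : 0 ≤ qf G x x := by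
  simp only [checkPSD3, Bool.and_eq_true, forceZ_eq] at h
  obtain ⟨⟨⟨⟨hG, hL⟩, hs⟩, hb⟩, hr⟩ := h
  set n := G.length with hn
  obtain ⟨hG1, hG2⟩ := entOk_spec _ _ _ hG
  obtain ⟨hL1, hL2⟩ := entOk_spec _ _ _ hL
  have hs := Nat.le_of_ble_eq_true hs
  have hb := Nat.le_of_ble_eq_true hb
  set B : ℤ := ((2 ^ b : ℕ) : ℤ) with hB
  have hrow : ∀ i < n, ∀ j < n, |ent G i j - ∑ k ∈ range L.length, ent L k i * ent L k j -
      (if j = i then (s : ℤ) else 0)| ≤ ε := by
    intro i hi
    obtain ⟨y, hy1, hy2⟩ := rowsOk_spec _ _ _ _ _ _ _ _ _ hr i hi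
    obtain ⟨d, hd, hd2⟩ := dig_spec _ _ _ _ hy1
    rw [pk_eq B (G.getD i []) n (by
        rw [List.getD_eq_getElem _ _ hi, hG1 _ (List.getElem_mem hi)]),
      comb_eq B n L (fun r hr => (hL1 r hr).le), pk_eq B _ n (by simp), hd2] at hy2
    have e1 : (s : ℤ) * (B ^ i * 1) = ∑ j ∈ range n, (if j = i then (s : ℤ) else 0) * B ^ j := by
      simp only [ite_mul, zero_mul]
      rw [Finset.sum_ite_eq' (range n) i, if_pos (mem_range.mpr hi)]
      ring
    have e2 : ∑ j ∈ range n, (List.replicate n (ε : ℤ)).getD j 0 * B ^ j =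
        ∑ j ∈ range n, (ε : ℤ) * B ^ j := by
      apply Finset.sum_congr rfl
      intro j hj
      rw [mem_range] at hj
      rw [List.getD_eq_getElem _ _ (by simpa using hj), List.getElem_replicate]
    rw [e1, e2, ← Finset.sum_sub_distrib, ← Finset.sum_sub_distrib, ← Finset.sum_add_distrib,
      ← sub_eq_zero, ← Finset.sum_sub_distrib] at hy2
    set a : ℕ → ℤ := fun j => (d j : ℤ) - (ent G i j -
      ∑ k ∈ range L.length, ent L k i * ent L k j - (if j = i then (s : ℤ) else 0) + ε) with ha
    have hz : ∑ j ∈ range n, a j * B ^ j = 0 := by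
      rw [← hy2]
      apply Finset.sum_congr rfl
      intro j _
      simp only [ha, ent]
      ring
    have hbd : ∀ j < n, |a j| < B := by
      intro j _
      have h1 : |∑ k ∈ range L.length, ent L k i * ent L k j| ≤
          L.length * ((ML : ℤ) * ML) := by
        refine (Finset.abs_sum_le_sum_abs _ _).trans ?_
        calc ∑ k ∈ range L.length, |ent L k i * ent L k j|
            ≤ ∑ _k ∈ range L.length, (ML : ℤ) * ML := by
              apply Finset.sum_le_sum
              intro k _
              rw [abs_mul]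
              exact mul_le_mul (hL2 k i) (hL2 k j) (abs_nonneg _) (by positivity)
          _ = L.length * ((ML : ℤ) * ML) := by
              rw [Finset.sum_const, card_range, nsmul_eq_mul]
      have h2 := hG2 i j
      have h3 : |(if j = i then (s : ℤ) else 0)| ≤ s := by
        split_ifs
        · simp
        · simp
      have h4 : |(d j : ℤ) - ε| ≤ ε := by
        have := hd j
        rw [abs_le]
        constructor
        · have : (0 : ℤ) ≤ d j := by positivity
          linarith
        · have : (d j : ℤ) ≤ 2 * ε := by exact_mod_cast this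
          linarith
      have e3 : a j = ((d j : ℤ) - ε) - ent G i j +
          ∑ k ∈ range L.length, ent L k i * ent L k j + (if j = i then (s : ℤ) else 0) := by
        simp only [ha]; ring
      have h5 : (MG : ℤ) + L.length * (ML * ML) + s + ε + 1 ≤ B := by
        rw [hB]; exact_mod_cast hb
      rw [e3]
      have h6 := abs_add_le (((d j : ℤ) - ε) - ent G i j +
          ∑ k ∈ range L.length, ent L k i * ent L k j) (if j = i then (s : ℤ) else 0)
      have h7 := abs_add_le (((d j : ℤ) - ε) - ent G i j)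
          (∑ k ∈ range L.length, ent L k i * ent L k j)
      have h8 := abs_sub ((d j : ℤ) - ε) (ent G i j)
      linarith
    intro j hj
    have h9 := kron B n a hbd hz j hj
    have h4 : |(d j : ℤ) - ε| ≤ ε := by
      have := hd j
      rw [abs_le]
      constructor
      · have : (0 : ℤ) ≤ d j := by positivity
        linarith
      · have : (d j : ℤ) ≤ 2 * ε := by exact_mod_cast this
        linarith
    have e4 : ent G i j - ∑ k ∈ range L.length, ent L k i * ent L k j -
        (if j = i then (s : ℤ) else 0) = (d j : ℤ) - ε := by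
      simp only [ha] at h9
      linarith
    rw [e4]
    exact h4
  rw [qf_eq_sum G x x n n le_rfl (fun r hr => (hG1 r hr).le)]
  -- the decomposition
  set y : ℕ → ℝ := fun i => x.getD i 0 with hy
  set D : ℕ → ℕ → ℝ := fun i j => (((ent G i j - ∑ k ∈ range L.length, ent L k i * ent L k j -
      (if j = i then (s : ℤ) else 0) : ℤ)) : ℝ) with hDdef
  have hD : ∀ i < n, ∀ j < n, |D i j| ≤ ε := by
    intro i hi j hj
    have := hrow i hi j hj
    simp only [hDdef]
    rw [← Int.cast_abs]
    exact_mod_cast this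
  have h10 := sum_sq_ge D ε (by positivity) hD y
  have e5 : ∑ i ∈ range n, ∑ j ∈ range n, (ent G i j : ℝ) * x.getD j 0 * x.getD i 0 =
      ∑ k ∈ range L.length, (∑ i ∈ range n, (ent L k i : ℝ) * y i) ^ 2 +
      s * ∑ i ∈ range n, y i ^ 2 + ∑ i ∈ range n, ∑ j ∈ range n, D i j * y j * y i := by
    have e6 : ∀ i ∈ range n, ∀ j ∈ range n, (ent G i j : ℝ) * x.getD j 0 * x.getD i 0 =
        ∑ k ∈ range L.length, ((ent L k i : ℝ) * y i) * ((ent L k j : ℝ) * y j) +
        (if j = i then (s : ℝ) * y i ^ 2 else 0) + D i j * y j * y i := by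
      intro i _ j _
      simp only [hDdef, hy]
      push_cast
      have e7 : ∑ k ∈ range L.length, ((ent L k i : ℝ) * x.getD i 0) *
          ((ent L k j : ℝ) * x.getD j 0) =
          (∑ k ∈ range L.length, (ent L k i : ℝ) * (ent L k j : ℝ)) * x.getD j 0 * x.getD i 0 := by
        rw [Finset.sum_mul, Finset.sum_mul]
        apply Finset.sum_congr rfl
        intro k _
        ring
      rw [e7]
      by_cases hij : j = i
      · subst hij
        simp only [if_true]
        ring
      · simp only [if_neg hij]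
        ring
    rw [Finset.sum_congr rfl fun i hi => Finset.sum_congr rfl fun j hj => e6 i hi j hj]
    simp only [Finset.sum_add_distrib]
    congr 1
    congr 1
    · have : ∀ i ∈ range n, ∑ j ∈ range n, ∑ k ∈ range L.length,
          ((ent L k i : ℝ) * y i) * ((ent L k j : ℝ) * y j) =
          ∑ k ∈ range L.length, ∑ j ∈ range n,
          ((ent L k i : ℝ) * y i) * ((ent L k j : ℝ) * y j) := fun i _ => Finset.sum_comm
      rw [Finset.sum_congr rfl this, Finset.sum_comm]
      apply Finset.sum_congr rfl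
      intro k _
      rw [sq, Finset.sum_mul]
      apply Finset.sum_congr rfl
      intro i _
      rw [Finset.mul_sum]
    · rw [Finset.mul_sum]
      apply Finset.sum_congr rfl
      intro i hi
      rw [Finset.sum_ite_eq' (range n) i, if_pos hi]
  rw [e5]
  have h11 : (0 : ℝ) ≤ ∑ k ∈ range L.length, (∑ i ∈ range n, (ent L k i : ℝ) * y i) ^ 2 :=
    Finset.sum_nonneg fun k _ => sq_nonneg _
  have h12 : (0 : ℝ) ≤ ∑ i ∈ range n, y i ^ 2 := Finset.sum_nonneg fun k _ => sq_nonneg _
  have h13 : (n : ℝ) * ε ≤ s := by exact_mod_cast hs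
  nlinarith [mul_le_mul_of_nonneg_right h13 h12]

end Pool.Agent.H105.AKN
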