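import Pool.Agent.H104.AKN.PackBound
import Pool.Agent.H105.AKN.Psd3

/-!
# Weighted bounds from certificates with positive semidefinite Gram matrices

The statements of `Pool.Agent.H104.AKN.Cert` and `PackBound` (by helper104) under the weaker
hypothesis `PSDB` on the blocks, so that the faster checks `checkPSD2` and
`checkPSD3` can be used.
-/

namespace Pool.Agent.H105.AKN

open Finset Metric Pool.Agent.H104.AKN

/-- all Gram matrices are positive semidefinite -/
def PSDB (bs : List Block) : Prop := ∀ B ∈ bs, ∀ x : List ℝ, 0 ≤ qf B.gram x x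

lemma PSDB.nil : PSDB [] := by intro B hB; simp at hB

lemma PSDB.cons {B : Block} {bs : List Block} (h : checkPSD2 B.scale B.gram B.rows = true)
    (h2 : PSDB bs) : PSDB (B :: bs) := by
  intro C hC
  rcases List.mem_cons.mp hC with rfl | hC
  · exact qf_nonneg_of_check2 _ _ _ h
  · exact h2 C hC

lemma PSDB.cons3 {B : Block} {bs : List Block} {b MG ML s ε : ℕ}
    (h : checkPSD3 b MG ML s ε B.gram B.rows = true) (h2 : PSDB bs) : PSDB (B :: bs) := by
  intro C hC
  rcases List.mem_cons.mp hC with rfl | hC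
  · exact qf_nonneg_of_check3 _ _ _ _ _ _ _ h
  · exact h2 C hC

lemma sumBlocks_nonneg2 (v w t : ℝ) (gens : List P3) (hg : ∀ g ∈ gens, 0 ≤ ev3 v w t g) :
    ∀ bs : List Block, PSDB bs → 0 ≤ ev3 v w t (sumBlocks gens bs)
  | [], _ => by simp [sumBlocks, ev3_nil]
  | B :: r, h => by
    have ih := sumBlocks_nonneg2 v w t gens hg r (fun C hC => h C (List.mem_cons_of_mem _ hC))
    simp only [sumBlocks, ev3_add, blockPoly, ev3_mul, ev3_quad3]
    have h1 := ev3_prod3_nonneg v w t gens hg B.mult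
    have h2 := h B (List.mem_cons_self ..) (B.basis.map (ev3 v w t))
    have := mul_nonneg h1 h2
    linarith

theorem cert_sound2 (gens : List P3) (bs : List Block) (N : ℕ) (target : P3) (hN : 0 < N)
    (h1 : PSDB bs) (h2 : eqv3 (smul3 N target) (sumBlocks gens bs) = true)
    (v w t : ℝ) (hg : ∀ g ∈ gens, 0 ≤ ev3 v w t g) : 0 ≤ ev3 v w t target := by
  have h3 := sumBlocks_nonneg2 v w t gens hg bs h1
  rw [← ev3_eqv v w t _ _ h2, ev3_smul] at h3
  have hN' : (0 : ℝ) < ((N : ℤ) : ℝ) := by exact_mod_cast hN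
  exact nonneg_of_mul_nonneg_right h3 hN'

section

variable (c : Cert) (h0 : c.ok0 = true) (h1 : c.ok1 = true) (h1' : PSDB c.blocks)
  (h2 : c.ok2 = true) (h2' : PSDB c.dblocks)

include h1 h1' h0 in
lemma neg2 (v w t : ℝ) (hv : -1 ≤ v) (hv' : v ≤ 1) (hw : -1 ≤ w) (hw' : w ≤ 1)
    (ht : -1 ≤ t) (ht' : 0 ≤ 2 * (c.A : ℝ) ^ 2 * (1 - t) - (c.A + c.B * v) * (c.A + c.B * w)) :
    (c.d : ℝ) * (ev1 v c.W * ev1 w c.W) + ev3 v w t (kpoly c.terms) ≤ 0 := by
  simp only [Cert.ok0, Bool.and_eq_true, decide_eq_true_eq] at h0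
  have hN : 0 < c.N := h0.1.1.1.1.2
  have h := cert_sound2 [g0 c.A c.B, g1, g2, g3] c.blocks c.N c.negZ hN h1' h1 v w t (by
    intro g hg
    simp only [List.mem_cons, List.not_mem_nil, or_false] at hg
    rcases hg with rfl | rfl | rfl | rfl
    · rw [ev3_g0]; exact ht'
    · rw [ev3_g1]; linarith
    · rw [ev3_g2]; nlinarith
    · rw [ev3_g3]; nlinarith)
  rw [Cert.negZ, ev3_smul, ev3_add, ev3_smul, ev3_tens] at h
  have e : ev1 t [1] = 1 := by simp [ev1, ev0, lev]
  rw [e] at h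
  push_cast at h
  linarith

include h2 h2' h0 in
lemma dg2 (v : ℝ) (hv : -1 ≤ v) (hv' : v ≤ 1) :
    (c.d : ℝ) * (ev1 v c.W * ev1 v c.W) + ev1 v (kdiag c.terms) ≤ c.D * ev1 v c.W := by
  simp only [Cert.ok0, Bool.and_eq_true, decide_eq_true_eq] at h0
  have hN : 0 < c.N' := h0.1.1.1.2
  have h := cert_sound2 [g2] c.dblocks c.N' c.diag hN h2' h2 v 0 0 (by
    intro g hg
    simp only [List.mem_cons, List.not_mem_nil, or_false] at hg
    rcases hg with rfl
    rw [ev3_g2]; nlinarith)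
  rw [Cert.diag, ev3_emb, ev1_add, ev1_smul, ev1_smul, ev1_add, ev1_smul, ev1_mul] at h
  push_cast at h
  linarith

include h0 h2 h2' in
lemma Wnn2 (hn : c.n ≠ 0) (v : ℝ) (hv : -1 ≤ v) (hv' : v ≤ 1) : 0 ≤ ev1 v c.W := by
  have h3 := dg2 c h0 h2 h2' v hv hv'
  have h4 := (kdiag_nonneg c h0 v).resolve_right hn
  simp only [Cert.ok0, Bool.and_eq_true, decide_eq_true_eq] at h0
  have hd : (0 : ℝ) < c.d := by exact_mod_cast h0.1.1.1.1.1.1.1.2
  have hD : (0 : ℝ) < c.D := by exact_mod_cast h0.1.1.1.1.1.1.2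
  nlinarith [mul_nonneg hd.le (mul_self_nonneg (ev1 v c.W))]

include h0 h1 h1' h2 h2' in
/-- **the weighted bound** -/
theorem bound2 (hn : c.n ≠ 0) {ι : Type} (s : Finset ι) (x : ι → Fin c.n → ℝ)
    (hx : ∀ i ∈ s, ∑ t, x i t * x i t = 1) (σ : ι → ℝ)
    (hxy : ∀ i ∈ s, ∀ j ∈ s, i ≠ j → ∑ t, x i t * x j t ≤ 1 - 2 * (σ i * σ j)) :
    ∑ i ∈ s, c.om (σ i) ≤ (c.Kn : ℝ) / c.Kd := by
  classical
  have hWn := Wnn2 c h0 h2 h2' hn
  have hneg := neg2 c h0 h1 h1'
  have hdg := dg2 c h0 h2 h2'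
  simp only [Cert.ok0, Bool.and_eq_true, decide_eq_true_eq] at h0
  have hB : (0 : ℝ) < c.B := by exact_mod_cast h0.1.1.1.1.1.1.1.1.1.1
  have hBA : (c.B : ℝ) < c.A := by exact_mod_cast h0.1.1.1.1.1.1.1.1.1.2
  have hW0 : (0 : ℝ) < c.W0 := by exact_mod_cast h0.1.1.1.1.1.1.1.1.2
  have hd : (0 : ℝ) < c.d := by exact_mod_cast h0.1.1.1.1.1.1.1.2
  have hKd : (0 : ℝ) < c.Kd := by exact_mod_cast h0.1.1.2
  have hK : (c.D : ℝ) * c.Kd ≤ c.Kn * c.W0 * c.d := by exact_mod_cast h0.1.2
  have hKn : (0 : ℝ) ≤ c.Kn := by positivity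
  set v : ι → ℝ := fun i => min 1 ((2 * c.A * σ i - c.A) / c.B) with hv
  set s' := s.filter (fun i => ¬ (2 * c.A * σ i < c.A - c.B)) with hs'
  have e1 : ∑ i ∈ s, c.om (σ i) = (∑ i ∈ s', ev1 (v i) c.W) / c.W0 := by
    rw [hs', Finset.sum_filter, Finset.sum_div]
    apply Finset.sum_congr rfl
    intro i _
    simp only [Cert.om, hv]
    split_ifs with h
    · simp
    · rfl
  rw [e1]
  have hm : ∀ i ∈ s', i ∈ s ∧ (c.A : ℝ) - c.B ≤ 2 * c.A * σ i := by
    intro i hi
    rw [hs', Finset.mem_filter] at hi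
    exact ⟨hi.1, not_lt.mp hi.2⟩
  have hv1 : ∀ i ∈ s', v i ≤ 1 := fun i _ => min_le_left _ _
  have hv2 : ∀ i ∈ s', -1 ≤ v i := by
    intro i hi
    rw [hv]
    simp only [le_min_iff]
    refine ⟨by norm_num, ?_⟩
    rw [le_div_iff₀ hB]
    linarith [(hm i hi).2]
  have hv3 : ∀ i ∈ s', (c.A : ℝ) + c.B * v i ≤ 2 * c.A * σ i := by
    intro i _
    have : v i ≤ (2 * c.A * σ i - c.A) / c.B := min_le_right _ _
    rw [le_div_iff₀ hB] at this
    linarith
  have hv4 : ∀ i ∈ s', 0 < (c.A : ℝ) + c.B * v i := by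
    intro i hi
    nlinarith [hv2 i hi]
  by_cases hS : 0 < ∑ i ∈ s', ev1 (v i) c.W
  · have h5 := lp_main c.n c.W c.d c.D c.terms h0.2 s' x (fun i hi => hx i (hm i hi).1) v
      (by
        intro i hi j hj hij
        apply hneg _ _ _ (hv2 i hi) (hv1 i hi) (hv2 j hj) (hv1 j hj)
        · have h6 : 0 ≤ ∑ t, (x i t + x j t) * (x i t + x j t) :=
            Finset.sum_nonneg fun t _ => mul_self_nonneg _
          have h7 : ∑ t, (x i t + x j t) * (x i t + x j t) =
              ∑ t, x i t * x i t + ∑ t, x j t * x j t + 2 * ∑ t, x i t * x j t := by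
            rw [Finset.mul_sum, ← Finset.sum_add_distrib, ← Finset.sum_add_distrib]
            apply Finset.sum_congr rfl
            intro t _
            ring
          rw [h7, hx i (hm i hi).1, hx j (hm j hj).1] at h6
          linarith
        · have h6 := hxy i (hm i hi).1 j (hm j hj).1 hij
          have h8 : (c.A + c.B * v i) * (c.A + c.B * v j) ≤
              (2 * c.A * σ i) * (2 * c.A * σ j) :=
            mul_le_mul (hv3 i hi) (hv3 j hj) (hv4 j hj).le (le_trans (hv4 i hi).le (hv3 i hi))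
          nlinarith [mul_nonneg (mul_self_nonneg (c.A : ℝ)) (sub_nonneg.mpr h6)])
      (fun i hi => hdg _ (hv2 i hi) (hv1 i hi)) hS
    rw [div_le_div_iff₀ hW0 hKd]
    have h9 : (c.d : ℝ) * ((∑ i ∈ s', ev1 (v i) c.W) * c.Kd) ≤ c.d * (c.Kn * c.W0) := by
      calc (c.d : ℝ) * ((∑ i ∈ s', ev1 (v i) c.W) * c.Kd)
          = (c.d * ∑ i ∈ s', ev1 (v i) c.W) * c.Kd := by ring
        _ ≤ c.D * c.Kd := mul_le_mul_of_nonneg_right h5 hKd.le
        _ ≤ c.Kn * c.W0 * c.d := hK
        _ = c.d * (c.Kn * c.W0) := by ring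
    exact le_of_mul_le_mul_left h9 hd
  · push Not at hS
    have h10 : (∑ i ∈ s', ev1 (v i) c.W) / c.W0 ≤ 0 := div_nonpos_of_nonpos_of_nonneg hS hW0.le
    have h11 : 0 ≤ (c.Kn : ℝ) / c.Kd := by positivity
    linarith

include h0 h1 h1' h2 h2' in
/-- the bound for ordered pairs of tangent balls -/
theorem pairs_le2 (hn : c.n ≠ 0) (P : Packing c.n) :
    ∑ i, ∑ j, (if i ≠ j ∧ dist (P.center i) (P.center j) = P.radius i + P.radius j then (1 : ℝ)
      else 0) ≤ (c.Kn : ℝ) / c.Kd * P.N := by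
  classical
  set T : Fin P.N → Fin P.N → Prop := fun i j =>
    i ≠ j ∧ dist (P.center i) (P.center j) = P.radius i + P.radius j with hT
  have hsymm : ∀ i j, T i j → T j i := fun i j h => ⟨h.1.symm, by rw [dist_comm, h.2, add_comm]⟩
  set σ : Fin P.N → Fin P.N → ℝ := fun i j => P.radius j / (P.radius i + P.radius j) with hσ
  have hone : ∀ i j, σ j i = 1 - σ i j := by
    intro i j
    have h1 := P.radius_pos i
    have h2 := P.radius_pos j
    have h3 : P.radius i + P.radius j ≠ 0 := by positivity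
    simp only [hσ]
    rw [add_comm (P.radius j), eq_sub_iff_add_eq, ← add_div, div_self h3]
  have hb : ∀ i, ∑ j ∈ univ.filter (fun j => T i j), c.om (σ i j) ≤ (c.Kn : ℝ) / c.Kd := by
    intro i
    refine bound2 c h0 h1 h1' h2 h2' hn (univ.filter (fun j => T i j))
      (fun j t => (P.center j t - P.center i t) / (P.radius i + P.radius j)) ?_ (σ i) ?_
    · intro j hj
      rw [Finset.mem_filter] at hj
      have h3 : 0 < P.radius i + P.radius j := add_pos (P.radius_pos i) (P.radius_pos j)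
      have h4 : ∑ t, (P.center i t - P.center j t) ^ 2 = (P.radius i + P.radius j) ^ 2 := by
        rw [← sqdist_sum, hj.2.2]
      have h5 : ∑ t, (P.center j t - P.center i t) / (P.radius i + P.radius j) *
          ((P.center j t - P.center i t) / (P.radius i + P.radius j)) =
          (∑ t, (P.center i t - P.center j t) ^ 2) / (P.radius i + P.radius j) ^ 2 := by
        rw [Finset.sum_div]
        apply Finset.sum_congr rfl
        intro t _
        field_simp
        ring
      rw [h5, h4, div_self (by positivity)]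
    · intro j hj k hk hjk
      rw [Finset.mem_filter] at hj hk
      exact direction_bound (P.center i) (P.center j) (P.center k) (P.radius i) (P.radius j)
        (P.radius k) (P.radius_pos i) (P.radius_pos j) (P.radius_pos k) hj.2.2 hk.2.2
        (dist_ge_of_disjoint _ _ _ _ (P.radius_pos j) (P.radius_pos k)
          (P.disjoint_interiors j k hjk))
  have hWn := Wnn2 c h0 h2 h2' hn
  have e1 : ∑ i, ∑ j, (if T i j then c.om (σ i j) else 0) ≤ (c.Kn : ℝ) / c.Kd * P.N := by
    calc ∑ i, ∑ j, (if T i j then c.om (σ i j) else 0)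
        ≤ ∑ _i : Fin P.N, (c.Kn : ℝ) / c.Kd := by
          apply Finset.sum_le_sum
          intro i _
          rw [← Finset.sum_filter]
          exact hb i
      _ = (c.Kn : ℝ) / c.Kd * P.N := by
          rw [Finset.sum_const, Finset.card_univ, Fintype.card_fin, nsmul_eq_mul, mul_comm]
  have e2 : ∑ i, ∑ j, (if T i j then c.om (σ j i) else 0) =
      ∑ i, ∑ j, (if T i j then c.om (σ i j) else 0) := by
    rw [Finset.sum_comm]
    apply Finset.sum_congr rfl
    intro i _
    apply Finset.sum_congr rfl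
    intro j _
    by_cases h : T i j
    · rw [if_pos h, if_pos (hsymm i j h)]
    · rw [if_neg h, if_neg (fun h' => h (hsymm j i h'))]
  have e3 : 2 * ∑ i, ∑ j, (if T i j then (1 : ℝ) else 0) ≤
      ∑ i, ∑ j, (if T i j then c.om (σ i j) else 0) +
      ∑ i, ∑ j, (if T i j then c.om (σ j i) else 0) := by
    rw [Finset.mul_sum, ← Finset.sum_add_distrib]
    apply Finset.sum_le_sum
    intro i _
    rw [Finset.mul_sum, ← Finset.sum_add_distrib]
    apply Finset.sum_le_sum
    intro j _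
    split_ifs with h
    · rw [hone i j, mul_one]
      exact c.om_add h0 hWn (σ i j)
    · simp
  rw [e2] at e3
  have e4 : ∑ i, ∑ j, (if i ≠ j ∧ dist (P.center i) (P.center j) = P.radius i + P.radius j
      then (1 : ℝ) else 0) = ∑ i, ∑ j, (if T i j then (1 : ℝ) else 0) := by
    apply Finset.sum_congr rfl
    intro i _
    apply Finset.sum_congr rfl
    intro j _
    by_cases h : T i j
    · rw [if_pos h]
    · rw [if_neg h]
  rw [e4]
  linarith

include h0 h1 h1' h2 h2' in
/-- **upper bound for the average kissing number of a packing** -/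
theorem avg_le2 (hn : c.n ≠ 0) (P : Packing c.n) : P.avg ≤ (c.Kn : ℝ) / c.Kd := by
  have hN : (0 : ℝ) < P.N := by exact_mod_cast P.one_le
  rw [avg_eq, div_le_iff₀ hN]
  exact pairs_le2 c h0 h1 h1' h2 h2' hn P

end

end Pool.Agent.H105.AKN
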