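import Pool.Agent.H104.AKN.ListPoly

/-!
# Matrices encoded as natural numbers
-/

namespace Pool.Agent.H105.AKN

open Pool.Agent.H104.AKN

/-- `f n`, where the evaluation of `n` comes first -/
def forceN {α : Type} (n : ℕ) (f : ℕ → α) : α :=
  match n with
  | 0 => f 0
  | k + 1 => f (k + 1)

/-- `f z`, where the evaluation of `z` comes first -/
def forceZ {α : Type} (z : ℤ) (f : ℤ → α) : α :=
  match z with
  | Int.ofNat a => forceN a (fun a => f (Int.ofNat a))
  | Int.negSucc a => forceN a (fun a => f (Int.negSucc a))

lemma forceN_eq {α : Type} (n : ℕ) (f : ℕ → α) : forceN n f = f n := by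
  cases n <;> rfl

lemma forceZ_eq {α : Type} (z : ℤ) (f : ℤ → α) : forceZ z f = f z := by
  cases z with
  | ofNat a => simp only [forceZ, forceN_eq]
  | negSucc a => simp only [forceZ, forceN_eq]

/-- the `n` lowest digits of `x` in base `B`, each diminished by `H` -/
def decRow (B H : ℕ) : ℕ → ℕ → List ℤ
  | 0, _ => []
  | n + 1, x => forceZ (Int.subNatNat (x % B) H) (fun a => forceN (x / B)
      (fun y => a :: decRow B H n y))

/-- the matrix with the rows encoded by the list -/
def decM (b n : ℕ) (l : List ℕ) : List (List ℤ) := l.map (decRow (2 ^ b) (2 ^ (b - 1)) n)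

/-- the polynomial in `v, w` times `t ^ c` -/
def monT (c : ℕ) (p : List (List ℤ)) : P3 :=
  p.map (fun r => r.map (fun a => if a == 0 then [] else List.replicate c (0 : ℤ) ++ [a]))

/-- polynomials in `v, w` times `1, t, ..., t ^ d` -/
def timesT (d : ℕ) (l : List (List (List ℤ))) : List P3 :=
  l.flatMap (fun p => (List.range (d + 1)).map (fun c => monT c p))

end Pool.Agent.H105.AKN
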