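import Pool.Agent.H104.AKN.PackBound

/-!
# Tangent graphs of collections of balls and the numbers `E(n, d)` and `κ_d`
-/

namespace Pool.Agent.H105.AKN

open Finset Metric Filter Topology

/-- A collection of `n` closed balls in `ℝ^d` such that any two of them have disjoint interiors,
that is, the distance of their centers is at least the sum of their (positive) radii. -/
structure Balls (n d : ℕ) where
  /-- the centers -/
  center : Fin n → EuclideanSpace ℝ (Fin d)
  /-- the radii -/
  radius : Fin n → ℝ
  radius_pos : ∀ i, 0 < radius i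
  separated : ∀ i j, i ≠ j → radius i + radius j ≤ dist (center i) (center j)

/-- The tangent graph: two different balls are adjacent when they are tangent. -/
def Balls.tangentGraph {n d : ℕ} (B : Balls n d) : SimpleGraph (Fin n) where
  Adj i j := i ≠ j ∧ dist (B.center i) (B.center j) = B.radius i + B.radius j
  symm := ⟨fun i j h => ⟨h.1.symm, by rw [dist_comm, h.2, add_comm]⟩⟩
  loopless := ⟨fun _ h => h.1 rfl⟩

/-- the number of edges of the tangent graph -/
noncomputable def Balls.edges {n d : ℕ} (B : Balls n d) : ℕ := B.tangentGraph.edgeSet.ncard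

/-- `E(n,d)`: the maximum number of edges of the tangent graph of `n` balls in `ℝ^d`. -/
noncomputable def E (n d : ℕ) : ℕ := sSup {e : ℕ | ∃ B : Balls n d, B.edges = e}

/-- `κ_d = sup_{n ≥ 1} E(n,d) / n`. -/
noncomputable def kappa (d : ℕ) : ℝ := sSup ((fun n : ℕ => (E n d : ℝ) / n) '' Set.Ici 1)

open Pool.Agent.H104.AKN in
/-- a nonempty collection as a packing -/
def Balls.toPacking {n d : ℕ} (B : Balls n d) (hn : 1 ≤ n) : Packing d where
  N := n
  one_le := hn
  center := B.center
  radius := B.radius
  radius_pos := B.radius_pos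
  disjoint_interiors i j hij :=
    disjoint_of_dist_ge _ _ _ _ (B.radius_pos i) (B.radius_pos j) (B.separated i j hij)

open Pool.Agent.H104.AKN in
/-- a packing as a collection -/
def ofPacking {d : ℕ} (P : Packing d) : Balls P.N d where
  center := P.center
  radius := P.radius
  radius_pos := P.radius_pos
  separated i j hij :=
    dist_ge_of_disjoint _ _ _ _ (P.radius_pos i) (P.radius_pos j) (P.disjoint_interiors i j hij)

open Pool.Agent.H104.AKN in
lemma toPacking_avg {n d : ℕ} (B : Balls n d) (hn : 1 ≤ n) :
    (B.toPacking hn).avg = 2 * (B.edges : ℝ) / n := rfl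

open Pool.Agent.H104.AKN in
lemma ofPacking_edges {d : ℕ} (P : Packing d) :
    P.avg = 2 * ((ofPacking P).edges : ℝ) / P.N := rfl

lemma edges_le {n d : ℕ} (B : Balls n d) : B.edges ≤ n.choose 2 := by
  classical
  have h1 : B.edges = B.tangentGraph.edgeFinset.card := by
    rw [Balls.edges, ← SimpleGraph.coe_edgeFinset, Set.ncard_coe_finset]
  rw [h1]
  have := B.tangentGraph.card_edgeFinset_le_card_choose_two
  simpa using this

lemma bddAbove_edges (n d : ℕ) : BddAbove {e : ℕ | ∃ B : Balls n d, B.edges = e} :=
  ⟨n.choose 2, by rintro e ⟨B, rfl⟩; exact edges_le B⟩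

lemma le_E {n d : ℕ} (B : Balls n d) : B.edges ≤ E n d :=
  le_csSup (bddAbove_edges n d) ⟨B, rfl⟩

lemma exists_direction {d : ℕ} (hd : 0 < d) (R : ℝ) (hR : 0 ≤ R) :
    ∃ v : EuclideanSpace ℝ (Fin d), ‖v‖ = R := by
  refine ⟨EuclideanSpace.single ⟨0, hd⟩ R, ?_⟩
  rw [PiLp.norm_single, Real.norm_of_nonneg hR]

/-- placing two collections far apart -/
lemma exists_union {m n d : ℕ} (hd : 0 < d) (B : Balls m d) (C : Balls n d) :
    ∃ D : Balls (m + n) d, B.edges + C.edges ≤ D.edges := by
  classical
  set M1 : ℝ := ∑ i, (‖B.center i‖ + B.radius i) with hM1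
  set M2 : ℝ := ∑ i, (‖C.center i‖ + C.radius i) with hM2
  have hB : ∀ i, ‖B.center i‖ + B.radius i ≤ M1 := fun i =>
    Finset.single_le_sum (f := fun i => ‖B.center i‖ + B.radius i)
      (fun i _ => add_nonneg (norm_nonneg _) (B.radius_pos i).le) (Finset.mem_univ i)
  have hC : ∀ i, ‖C.center i‖ + C.radius i ≤ M2 := fun i =>
    Finset.single_le_sum (f := fun i => ‖C.center i‖ + C.radius i)
      (fun i _ => add_nonneg (norm_nonneg _) (C.radius_pos i).le) (Finset.mem_univ i)
  have hM10 : 0 ≤ M1 := Finset.sum_nonneg fun i _ => add_nonneg (norm_nonneg _) (B.radius_pos i).le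
  have hM20 : 0 ≤ M2 := Finset.sum_nonneg fun i _ => add_nonneg (norm_nonneg _) (C.radius_pos i).le
  obtain ⟨v, hv⟩ := exists_direction hd (M1 + M2) (by linarith)
  have hfar : ∀ i j, B.radius i + C.radius j ≤ dist (B.center i) (C.center j + v) := by
    intro i j
    have h1 := hB i
    have h2 := hC j
    have h3 : ‖v‖ ≤ dist (B.center i) (C.center j + v) + ‖B.center i‖ + ‖C.center j‖ := by
      rw [dist_eq_norm]
      have : v = -(B.center i - (C.center j + v)) + B.center i - C.center j := by abel
      calc ‖v‖ = ‖-(B.center i - (C.center j + v)) + B.center i - C.center j‖ := by rw [← this]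
        _ ≤ ‖-(B.center i - (C.center j + v)) + B.center i‖ + ‖C.center j‖ := norm_sub_le _ _
        _ ≤ ‖-(B.center i - (C.center j + v))‖ + ‖B.center i‖ + ‖C.center j‖ := by
            gcongr; exact norm_add_le _ _
        _ = _ := by rw [norm_neg]
    rw [hv] at h3
    linarith
  let D : Balls (m + n) d :=
    { center := Fin.addCases B.center (fun j => C.center j + v)
      radius := Fin.addCases B.radius C.radius
      radius_pos := by
        intro i
        refine Fin.addCases (fun i => ?_) (fun i => ?_) i
        · simpa using B.radius_pos i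
        · simpa using C.radius_pos i
      separated := by
        intro i j
        refine Fin.addCases (fun i => ?_) (fun i => ?_) i <;>
          refine Fin.addCases (fun j => ?_) (fun j => ?_) j
        · intro h
          simpa using B.separated i j (fun h' => h (by rw [h']))
        · intro _
          simpa using hfar i j
        · intro _
          have := hfar j i
          rw [dist_comm, add_comm]
          simpa using this
        · intro h
          simpa using C.separated i j (fun h' => h (by rw [h'])) }
  refine ⟨D, ?_⟩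
  have hDB : ∀ i j, D.tangentGraph.Adj (Fin.castAdd n i) (Fin.castAdd n j) ↔
      B.tangentGraph.Adj i j := by
    intro i j
    have h1 : (Fin.castAdd n i ≠ Fin.castAdd n j) ↔ i ≠ j := by simp
    show (_ ∧ _) ↔ (_ ∧ _)
    simp only [D, Fin.addCases_left]
    rw [h1]
  have hDC : ∀ i j, D.tangentGraph.Adj (Fin.natAdd m i) (Fin.natAdd m j) ↔
      C.tangentGraph.Adj i j := by
    intro i j
    have h1 : (Fin.natAdd m i ≠ Fin.natAdd m j) ↔ i ≠ j := by simp
    show (_ ∧ _) ↔ (_ ∧ _)
    simp only [D, Fin.addCases_right, dist_add_right]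
    rw [h1]
  have e1 := Pool.Agent.H104.AKN.two_mul_edges D.tangentGraph
  have e2 := Pool.Agent.H104.AKN.two_mul_edges B.tangentGraph
  have e3 := Pool.Agent.H104.AKN.two_mul_edges C.tangentGraph
  rw [Fin.sum_univ_add] at e1
  have e4 : ∑ i : Fin m, ∑ j : Fin m, (if B.tangentGraph.Adj i j then (1 : ℝ) else 0) ≤
      ∑ i : Fin m, ∑ j : Fin (m + n),
        (if D.tangentGraph.Adj (Fin.castAdd n i) j then (1 : ℝ) else 0) := by
    apply Finset.sum_le_sum
    intro i _
    rw [Fin.sum_univ_add]
    have : ∑ j : Fin m, (if B.tangentGraph.Adj i j then (1 : ℝ) else 0) =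
        ∑ j : Fin m, (if D.tangentGraph.Adj (Fin.castAdd n i) (Fin.castAdd n j) then (1 : ℝ)
          else 0) :=
      Finset.sum_congr rfl fun j _ => by simp only [hDB]
    rw [this]
    have h0 : 0 ≤ ∑ j : Fin n, (if D.tangentGraph.Adj (Fin.castAdd n i) (Fin.natAdd m j) then (1 : ℝ)
          else 0) := Finset.sum_nonneg fun j _ => by split_ifs <;> norm_num
    linarith
  have e5 : ∑ i : Fin n, ∑ j : Fin n, (if C.tangentGraph.Adj i j then (1 : ℝ) else 0) ≤
      ∑ i : Fin n, ∑ j : Fin (m + n),
        (if D.tangentGraph.Adj (Fin.natAdd m i) j then (1 : ℝ) else 0) := by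
    apply Finset.sum_le_sum
    intro i _
    rw [Fin.sum_univ_add]
    have : ∑ j : Fin n, (if C.tangentGraph.Adj i j then (1 : ℝ) else 0) =
        ∑ j : Fin n, (if D.tangentGraph.Adj (Fin.natAdd m i) (Fin.natAdd m j) then (1 : ℝ)
          else 0) :=
      Finset.sum_congr rfl fun j _ => by simp only [hDC]
    rw [this]
    have h0 : 0 ≤ ∑ j : Fin m, (if D.tangentGraph.Adj (Fin.natAdd m i) (Fin.castAdd n j) then (1 : ℝ)
          else 0) := Finset.sum_nonneg fun j _ => by split_ifs <;> norm_num
    linarith
  have e6 : ((B.edges : ℝ)) + C.edges ≤ D.edges := by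
    unfold Balls.edges
    linarith
  exact_mod_cast e6

lemma exists_balls (n d : ℕ) (hd : 0 < d) : Nonempty (Balls n d) := by
  induction n with
  | zero =>
    exact Nonempty.intro
      { center := fun _ => 0
        radius := fun _ => 1
        radius_pos := fun _ => one_pos
        separated := fun i => i.elim0 }
  | succ n ih =>
    obtain ⟨B⟩ := ih
    let C : Balls 1 d :=
      { center := fun _ => 0
        radius := fun _ => 1
        radius_pos := fun _ => one_pos
        separated := fun i j h => absurd (Subsingleton.elim i j) h }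
    obtain ⟨D, _⟩ := exists_union hd B C
    exact Nonempty.intro D

lemma exists_E (n d : ℕ) (hd : 0 < d) : ∃ B : Balls n d, B.edges = E n d := by
  obtain ⟨B⟩ := exists_balls n d hd
  have hne : {e : ℕ | ∃ B : Balls n d, B.edges = e}.Nonempty := ⟨B.edges, B, rfl⟩
  exact Nat.sSup_mem hne (bddAbove_edges n d)

lemma E_add (m n d : ℕ) (hd : 0 < d) : E m d + E n d ≤ E (m + n) d := by
  obtain ⟨B, hB⟩ := exists_E m d hd
  obtain ⟨C, hC⟩ := exists_E n d hd
  obtain ⟨D, hD⟩ := exists_union hd B C
  rw [← hB, ← hC]
  exact hD.trans (le_E D)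

/-- An upper bound for all average degrees and packings which come near to it determine `κ_d`. -/
theorem kappa_of_bounds (d : ℕ) (hd : 0 < d) (K : ℝ)
    (hup : ∀ P : Pool.Agent.H104.AKN.Packing d, P.avg ≤ 2 * K)
    (hlow : ∀ L : ℝ, (∀ P : Pool.Agent.H104.AKN.Packing d, P.avg ≤ L) → 2 * K ≤ L) :
    (∀ n : ℕ, (E n d : ℝ) ≤ K * n) ∧
      Tendsto (fun n : ℕ => (E n d : ℝ) / n) atTop (𝓝 K) ∧ kappa d = K := by
  have h1 : ∀ n : ℕ, (E n d : ℝ) ≤ K * n := by
    intro n
    obtain ⟨B, hB⟩ := exists_E n d hd
    rw [← hB]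
    rcases Nat.eq_zero_or_pos n with rfl | hn
    · have := edges_le B
      simp at this
      simp [this]
    · have := hup (B.toPacking hn)
      rw [toPacking_avg] at this
      have hn' : (0 : ℝ) < n := by exact_mod_cast hn
      rw [div_le_iff₀ hn'] at this
      linarith
  have hsub : Subadditive (fun n : ℕ => - (E n d : ℝ)) := by
    intro m n
    have := E_add m n d hd
    have h2 : (E m d : ℝ) + E n d ≤ E (m + n) d := by exact_mod_cast this
    linarith
  have hbdd : BddBelow (Set.range fun n : ℕ => - (E n d : ℝ) / n) := by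
    refine ⟨-|K|, ?_⟩
    rintro x ⟨n, rfl⟩
    dsimp only
    rcases Nat.eq_zero_or_pos n with rfl | hn
    · simp
    · have hn' : (0 : ℝ) < n := by exact_mod_cast hn
      rw [le_div_iff₀ hn']
      have h2 := h1 n
      have h3 : K * n ≤ |K| * n := by gcongr; exact le_abs_self K
      linarith
  have hlim := hsub.tendsto_lim hbdd
  have hle : ∀ n : ℕ, n ≠ 0 → (E n d : ℝ) / n ≤ - hsub.lim := by
    intro n hn
    have := hsub.lim_le_div hbdd hn
    rw [neg_div] at this
    linarith
  have hlimK : - hsub.lim = K := by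
    apply le_antisymm
    · have h2 : Tendsto (fun n : ℕ => (E n d : ℝ) / n) atTop (𝓝 (- hsub.lim)) := by
        have := hlim.neg
        simpa [neg_div] using this
      apply le_of_tendsto h2
      filter_upwards [Filter.eventually_gt_atTop 0] with n hn
      have hn' : (0 : ℝ) < n := by exact_mod_cast hn
      rw [div_le_iff₀ hn']
      exact h1 n
    · have h3 := hlow (2 * (- hsub.lim)) (by
        intro P
        rw [ofPacking_edges]
        have h4 := hle P.N (by have := P.one_le; omega)
        have h5 : ((ofPacking P).edges : ℝ) ≤ E P.N d := by exact_mod_cast le_E (ofPacking P)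
        have hn' : (0 : ℝ) < P.N := by exact_mod_cast P.one_le
        rw [div_le_iff₀ hn'] at h4 ⊢
        linarith)
      linarith
  have hT : Tendsto (fun n : ℕ => (E n d : ℝ) / n) atTop (𝓝 K) := by
    have := hlim.neg
    rw [hlimK] at this
    simpa [neg_div] using this
  refine ⟨h1, hT, ?_⟩
  unfold kappa
  apply le_antisymm
  · apply csSup_le
    · exact ⟨_, 1, Set.mem_Ici.mpr le_rfl, rfl⟩
    · rintro x ⟨n, hn, rfl⟩
      have hn' : (0 : ℝ) < n := by
        have : 1 ≤ n := hn
        exact_mod_cast this
      dsimp only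
      rw [div_le_iff₀ hn']
      exact h1 n
  · apply le_of_tendsto hT
    filter_upwards [Filter.eventually_ge_atTop 1] with n hn
    apply le_csSup
    · refine ⟨K, ?_⟩
      rintro x ⟨n, hn, rfl⟩
      have hn' : (0 : ℝ) < n := by
        have : 1 ≤ n := hn
        exact_mod_cast this
      dsimp only
      rw [div_le_iff₀ hn']
      exact h1 n
    · exact ⟨n, hn, rfl⟩

end Pool.Agent.H105.AKN
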