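import Mathlib

/-!
# The extended binary Golay code by parity checks
-/

namespace Pool.Agent.H105.AKN.Golay

open Finset

/-- the rows of the parity check matrix -/
def rowsL : List ℕ := [1183, 2366, 1763, 3526, 3859, 2745, 493, 986, 1972, 3944, 2639, 3189]

def row (j : ℕ) : ℕ := rowsL.getD j 0

/-- scalar product of the last `k` binary digits -/
def dotp : ℕ → ℕ → ℕ → ℕ
  | 0, _, _ => 0
  | k + 1, n, r => (n % 2) * (r % 2) + dotp k (n / 2) (r / 2)

lemma dotp_eq (k : ℕ) : ∀ n r : ℕ,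
    dotp k n r = ∑ i ∈ range k, (n / 2 ^ i % 2) * (r / 2 ^ i % 2) := by
  induction k with
  | zero => intro n r; simp [dotp]
  | succ k ih =>
    intro n r
    rw [dotp, ih, Finset.sum_range_succ', add_comm]
    congr 1
    · apply Finset.sum_congr rfl
      intro i _
      rw [Nat.div_div_eq_div_mul, Nat.div_div_eq_div_mul, ← pow_succ']
    · simp

/-- the digits of the codeword with number `n < 4096` -/
def enc (n i : ℕ) : ℕ := if i < 12 then n / 2 ^ i % 2 else dotp 12 n (row (i - 12)) % 2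

/-- the weight of a codeword -/
def wt (n : ℕ) : ℕ := ((List.range 24).map (enc n)).sum

lemma sum_range_list (f : ℕ → ℕ) (n : ℕ) : ∑ i ∈ range n, f i = ((List.range n).map f).sum := by
  induction n with
  | zero => simp
  | succ n ih => rw [Finset.sum_range_succ, ih, List.range_succ, List.map_append, List.sum_append]; simp

lemma wt_eq (n : ℕ) : wt n = ∑ i ∈ range 24, enc n i := by
  rw [wt, sum_range_list]

/-- test value of a weight -/
def val (w : ℕ) : ℕ :=
  if w % 4 = 0 then (if w = 0 then 0 else if w = 8 then 1 else if w < 8 then 1000 else 0) else 1000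

lemma val_sum : ((List.range 4096).map (fun n => val (wt n))).sum = 759 := by decide +kernel

lemma val_sum' : ∑ n ∈ range 4096, val (wt n) = 759 := by
  rw [← val_sum, sum_range_list]

lemma wt_check : ∀ n < 4096, wt n % 4 = 0 ∧ (wt n = 0 ∨ 8 ≤ wt n) := by
  intro n hn
  have h1 : val (wt n) ≤ 759 := by
    rw [← val_sum']
    exact Finset.single_le_sum (f := fun n => val (wt n)) (fun _ _ => Nat.zero_le _)
      (Finset.mem_range.mpr hn)
  unfold val at h1
  split_ifs at h1 <;> omega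

lemma octads_card : ((Finset.range 4096).filter (fun n => wt n = 8)).card = 759 := by
  rw [← val_sum', Finset.card_filter]
  apply Finset.sum_congr rfl
  intro n hn
  have h1 := wt_check n (Finset.mem_range.mp hn)
  unfold val
  split_ifs <;> omega

lemma row_even : ∀ j < 12, (dotp 12 4095 (row j) + 1) % 2 = 0 := by decide +kernel

lemma digits_inj (k : ℕ) : ∀ n m : ℕ, n < 2 ^ k → m < 2 ^ k →
    (∀ i < k, n / 2 ^ i % 2 = m / 2 ^ i % 2) → n = m := by
  induction k with
  | zero => intro n m hn hm _; simp at hn hm; omega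
  | succ k ih =>
    intro n m hn hm h
    have h0 := h 0 (by omega)
    simp only [pow_zero, Nat.div_one] at h0
    have h1 := ih (n / 2) (m / 2) (by rw [pow_succ] at hn; omega) (by rw [pow_succ] at hm; omega) (by
      intro i hi
      have := h (i + 1) (by omega)
      rwa [Nat.div_div_eq_div_mul, Nat.div_div_eq_div_mul, ← pow_succ'])
    omega

lemma exists_digits (k : ℕ) : ∀ f : ℕ → ℕ, (∀ i, f i < 2) → ∃ n < 2 ^ k, ∀ i < k, n / 2 ^ i % 2 = f i := by
  induction k with
  | zero => intro f _; exact ⟨0, by simp, fun i hi => absurd hi (by omega)⟩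
  | succ k ih =>
    intro f hf
    obtain ⟨n, hn, h⟩ := ih (fun i => f (i + 1)) (fun i => hf _)
    refine ⟨f 0 + 2 * n, ?_, ?_⟩
    · have := hf 0
      rw [pow_succ]; omega
    · intro i hi
      rcases i with _ | i
      · have := hf 0
        simp only [pow_zero, Nat.div_one]
        omega
      · rw [pow_succ', ← Nat.div_div_eq_div_mul]
        have h1 : (f 0 + 2 * n) / 2 = n := by have := hf 0; omega
        rw [h1]
        exact h i (by omega)

/-- parity checks for integers modulo two -/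
def Par (k : ℕ → ℤ) : Prop :=
  ∀ j < 12, (∑ i ∈ range 12, k i * ((row j / 2 ^ i % 2 : ℕ) : ℤ) + k (12 + j)) % 2 = 0

lemma Par.add {k l : ℕ → ℤ} (hk : Par k) (hl : Par l) : Par (fun i => k i + l i) := by
  intro j hj
  have h1 := hk j hj
  have h2 := hl j hj
  have e : ∑ i ∈ range 12, (k i + l i) * ((row j / 2 ^ i % 2 : ℕ) : ℤ) + (k (12 + j) + l (12 + j)) =
      (∑ i ∈ range 12, k i * ((row j / 2 ^ i % 2 : ℕ) : ℤ) + k (12 + j)) +
      (∑ i ∈ range 12, l i * ((row j / 2 ^ i % 2 : ℕ) : ℤ) + l (12 + j)) := by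
    simp only [add_mul, Finset.sum_add_distrib]; ring
  dsimp only
  rw [e]; omega

lemma Par.neg {k : ℕ → ℤ} (hk : Par k) : Par (fun i => - k i) := by
  intro j hj
  have h1 := hk j hj
  have e : ∑ i ∈ range 12, (- k i) * ((row j / 2 ^ i % 2 : ℕ) : ℤ) + (- k (12 + j)) =
      - (∑ i ∈ range 12, k i * ((row j / 2 ^ i % 2 : ℕ) : ℤ) + k (12 + j)) := by
    simp only [neg_mul, Finset.sum_neg_distrib]; ring
  dsimp only
  rw [e]; omega

lemma Par.const (a : ℤ) : Par (fun _ => a) := by
  intro j hj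
  have h1 := row_even j hj
  rw [dotp_eq] at h1
  have h3 : ∀ i ∈ range 12, (4095 / 2 ^ i % 2) * (row j / 2 ^ i % 2) = row j / 2 ^ i % 2 := by
    intro i hi
    rw [Finset.mem_range] at hi
    have : 4095 / 2 ^ i % 2 = 1 := by interval_cases i <;> rfl
    rw [this, one_mul]
  rw [Finset.sum_congr rfl h3] at h1
  have h2 : (((∑ i ∈ range 12, (row j / 2 ^ i % 2) + 1 : ℕ) : ℤ)) % 2 = 0 := by exact_mod_cast h1
  have e : ∑ i ∈ range 12, a * ((row j / 2 ^ i % 2 : ℕ) : ℤ) + a =
      a * ((∑ i ∈ range 12, (row j / 2 ^ i % 2) + 1 : ℕ) : ℤ) := by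
    rw [← Finset.mul_sum]; push_cast; ring
  dsimp only
  rw [e, Int.mul_emod, h2]; simp

/-- a vector satisfying the parity checks has the parities of a codeword -/
lemma Par.exists_enc {k : ℕ → ℤ} (hk : Par k) :
    ∃ n < 4096, ∀ i < 24, k i % 2 = ((enc n i : ℕ) : ℤ) := by
  obtain ⟨n, hn, h⟩ := exists_digits 12 (fun i => (k i % 2).toNat) (by intro i; omega)
  refine ⟨n, by norm_num at hn; exact hn, ?_⟩
  intro i hi
  by_cases h12 : i < 12
  · rw [enc, if_pos h12, h i h12]; omega
  · rw [enc, if_neg h12, dotp_eq]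
    have h1 := hk (i - 12) (by omega)
    have e : 12 + (i - 12) = i := by omega
    rw [e] at h1
    have h2 : ∀ l ∈ range 12, (k l * ((row (i - 12) / 2 ^ l % 2 : ℕ) : ℤ)) % 2 =
        (((n / 2 ^ l % 2) * (row (i - 12) / 2 ^ l % 2) : ℕ) : ℤ) % 2 := by
      intro l hl
      rw [Finset.mem_range] at hl
      rw [h l hl]
      rw [Int.mul_emod]
      push_cast
      rw [Int.mul_emod (((k l % 2).toNat : ℕ) : ℤ)]
      congr 2
      omega
    have h3 : (∑ l ∈ range 12, k l * ((row (i - 12) / 2 ^ l % 2 : ℕ) : ℤ)) % 2 =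
        ((∑ l ∈ range 12, (n / 2 ^ l % 2) * (row (i - 12) / 2 ^ l % 2) : ℕ) : ℤ) % 2 := by
      rw [Finset.sum_int_mod, Finset.sum_congr rfl h2, ← Finset.sum_int_mod]
      push_cast
      rfl
    omega

lemma Par.weight {k : ℕ → ℤ} (hk : Par k) :
    (∑ i ∈ range 24, k i % 2) % 4 = 0 ∧ (∑ i ∈ range 24, k i % 2 = 0 ∨ 8 ≤ ∑ i ∈ range 24, k i % 2) := by
  obtain ⟨n, hn, h⟩ := hk.exists_enc
  have e : ∑ i ∈ range 24, k i % 2 = ((wt n : ℕ) : ℤ) := by
    rw [wt_eq]; push_cast
    exact Finset.sum_congr rfl fun i hi => h i (Finset.mem_range.mp hi)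
  rw [e]
  have := wt_check n hn
  omega

/-- codewords satisfy the parity checks -/
lemma par_enc (n : ℕ) : Par (fun i => ((enc n i : ℕ) : ℤ)) := by
  intro j hj
  have h1 : ∀ i ∈ range 12, ((enc n i : ℕ) : ℤ) * ((row j / 2 ^ i % 2 : ℕ) : ℤ) =
      (((n / 2 ^ i % 2) * (row j / 2 ^ i % 2) : ℕ) : ℤ) := by
    intro i hi
    rw [Finset.mem_range] at hi
    rw [enc, if_pos hi]; push_cast; rfl
  have h2 : enc n (12 + j) = (∑ i ∈ range 12, (n / 2 ^ i % 2) * (row j / 2 ^ i % 2)) % 2 := by
    rw [enc, if_neg (by omega), dotp_eq]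
    simp
  rw [Finset.sum_congr rfl h1, ← Nat.cast_sum]
  dsimp only
  rw [h2]
  omega

lemma enc_lt (n i : ℕ) : enc n i < 2 := by
  unfold enc; split_ifs <;> omega

lemma enc_inj (n m : ℕ) (hn : n < 4096) (hm : m < 4096) (h : ∀ i < 24, enc n i = enc m i) :
    n = m := by
  apply digits_inj 12 n m (by norm_num; exact hn) (by norm_num; exact hm)
  intro i hi
  have := h i (by omega)
  simpa [enc, hi] using this

end Pool.Agent.H105.AKN.Golay
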