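import Pool.Agent.H105.AKN.Golay

/-!
# The Leech lattice and its 196560 minimal vectors
-/

namespace Pool.Agent.H105.AKN.Leech

open Finset Golay

set_option linter.constructorNameAsVariable false

/-- the numbers of the codewords -/
@[irreducible] def RR : Finset ℕ := range 4096

lemma mem_RR (n : ℕ) : n ∈ RR ↔ n < 4096 := by unfold RR; exact Finset.mem_range

lemma card_RR : RR.card = 4096 := by unfold RR; exact Finset.card_range _

/-- the numbers of the octads -/
@[irreducible] def OO : Finset ℕ := (range 4096).filter (fun n => wt n = 8)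

lemma mem_OO (n : ℕ) : n ∈ OO ↔ n < 4096 ∧ wt n = 8 := by
  unfold OO; rw [Finset.mem_filter, Finset.mem_range]

lemma card_OO : OO.card = 759 := by unfold OO; exact octads_card

lemma Par_add_two {k : ℕ → ℤ} (g : ℕ → ℤ) (hk : Par k) : Par (fun i => k i + 2 * g i) := by
  intro j hj
  have h1 := hk j hj
  have e : ∑ i ∈ range 12, (k i + 2 * g i) * ((row j / 2 ^ i % 2 : ℕ) : ℤ) +
      (k (12 + j) + 2 * g (12 + j)) =
      (∑ i ∈ range 12, k i * ((row j / 2 ^ i % 2 : ℕ) : ℤ) + k (12 + j)) +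
      2 * (∑ i ∈ range 12, g i * ((row j / 2 ^ i % 2 : ℕ) : ℤ) + g (12 + j)) := by
    simp only [add_mul, Finset.sum_add_distrib, mul_add, Finset.mul_sum, mul_assoc]; ring
  dsimp only
  rw [e]; omega

/-- membership in the scaled Leech lattice -/
def inL (x : Fin 24 → ℤ) : Prop :=
  ∃ (m : ℤ) (k : ℕ → ℤ), (∀ i : Fin 24, x i = m + 2 * k i) ∧ Par k ∧ (∑ i, x i - 4 * m) % 8 = 0

lemma inL_add (x y : Fin 24 → ℤ) (hx : inL x) (hy : inL y) : inL (fun i => x i + y i) := by
  obtain ⟨m, k, h1, h2, h3⟩ := hx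
  obtain ⟨m', k', h1', h2', h3'⟩ := hy
  refine ⟨m + m', fun i => k i + k' i, ?_, h2.add h2', ?_⟩
  · intro i; dsimp only; rw [h1 i, h1' i]; ring
  · rw [Finset.sum_add_distrib]; omega

lemma inL_sub (x y : Fin 24 → ℤ) (hx : inL x) (hy : inL y) : inL (fun i => x i - y i) := by
  obtain ⟨m, k, h1, h2, h3⟩ := hx
  obtain ⟨m', k', h1', h2', h3'⟩ := hy
  refine ⟨m - m', fun i => k i + (- k' i), ?_, h2.add h2'.neg, ?_⟩
  · intro i; dsimp only; rw [h1 i, h1' i]; ring
  · rw [Finset.sum_sub_distrib]; omega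

lemma inL_period (x y : Fin 24 → ℤ) (hx : inL x) : inL (fun i => x i + 8 * y i) := by
  obtain ⟨m, k, h1, h2, h3⟩ := hx
  refine ⟨m, fun i => k i + 2 * (2 * (if h : i < 24 then y ⟨i, h⟩ else 0)), ?_,
    Par_add_two _ h2, ?_⟩
  · intro i; dsimp only; rw [h1 i, dif_pos i.2]; ring
  · rw [Finset.sum_add_distrib, ← Finset.mul_sum]; omega

lemma sq_mod (a : ℤ) : a % 2 ≤ a * a := by
  rcases Int.emod_two_eq_zero_or_one a with h | h
  · rw [h]; exact mul_self_nonneg a
  · rw [h]
    have : a ≠ 0 := by rintro rfl; simp at h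
    have := mul_self_pos.mpr this
    omega

/-- the minimum of the scaled Leech lattice -/
lemma norm_inL (z : Fin 24 → ℤ) (hz : inL z) (h0 : z ≠ 0) : 32 ≤ ∑ i, z i * z i := by
  obtain ⟨m, k, h1, h2, h3⟩ := hz
  set y : ℕ → ℤ := fun i => m / 2 + k i with hy
  have hP : Par y := (Par.const (m / 2)).add h2
  have hW := hP.weight
  rw [← Fin.sum_univ_eq_sum_range (fun i => y i % 2) 24] at hW
  rcases Int.emod_two_eq_zero_or_one m with hm | hm
  · have hz2 : ∀ i : Fin 24, z i = 2 * y i := by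
      intro i; rw [h1 i, hy]; dsimp only; omega
    rcases hW.2 with hW0 | hW8
    · have hall : ∀ i : Fin 24, y i % 2 = 0 := by
        intro i
        have := (Finset.sum_eq_zero_iff_of_nonneg (fun i _ => by omega)).mp hW0 i (Finset.mem_univ i)
        exact this
      set u : Fin 24 → ℤ := fun i => y i / 2 with hu
      have hz4 : ∀ i, z i = 4 * u i := by
        intro i; rw [hz2 i, hu]; have := hall i; dsimp only; omega
      have e1 : ∑ i, z i = 4 * ∑ i, u i := by
        rw [Finset.mul_sum]; exact Finset.sum_congr rfl fun i _ => hz4 i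
      have e2 : ∑ i, z i * z i = 16 * ∑ i, u i * u i := by
        rw [Finset.mul_sum]; exact Finset.sum_congr rfl fun i _ => by rw [hz4 i]; ring
      have e3 : (∑ i, u i) % 2 = 0 := by omega
      have e4 : ∃ m, ∑ i, u i * u i - ∑ i, u i = 2 * m := by
        rw [← Finset.sum_sub_distrib]
        have : ∀ i, ∃ m, u i * u i - u i = 2 * m := by
          intro i
          obtain ⟨m, hm⟩ := Int.even_mul_pred_self (u i)
          exact ⟨m, by rw [← two_mul] at hm; rw [← hm]; ring⟩
        choose m hm using this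
        exact ⟨∑ i, m i, by rw [Finset.mul_sum]; exact Finset.sum_congr rfl fun i _ => hm i⟩
      obtain ⟨m', hm'⟩ := e4
      have e5 : 0 < ∑ i, u i * u i := by
        obtain ⟨i, hi⟩ : ∃ i, z i ≠ 0 := by
          by_contra hc
          push Not at hc
          exact h0 (funext hc)
        have hyi : u i ≠ 0 := by
          intro h; apply hi; rw [hz4 i, h]; rfl
        refine Finset.sum_pos' (fun j _ => mul_self_nonneg _) ⟨i, Finset.mem_univ i, ?_⟩
        exact mul_self_pos.mpr hyi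
      omega
    · have e2 : ∑ i, z i * z i = 4 * ∑ i : Fin 24, y i * y i := by
        rw [Finset.mul_sum]; exact Finset.sum_congr rfl fun i _ => by rw [hz2 i]; ring
      have e3 : ∑ i : Fin 24, y i % 2 ≤ ∑ i : Fin 24, y i * y i :=
        Finset.sum_le_sum fun i _ => sq_mod _
      omega
  · have hz2 : ∀ i : Fin 24, z i = 1 + 2 * y i := by
      intro i; rw [h1 i, hy]; dsimp only; omega
    by_contra hlt
    push Not at hlt
    have e0 : ∑ i, (z i * z i - 1) = ∑ i, z i * z i - 24 := by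
      rw [Finset.sum_sub_distrib]; simp
    have hnn : ∀ i : Fin 24, 0 ≤ z i * z i - 1 := by
      intro i
      have : z i ≠ 0 := by rw [hz2 i]; omega
      have := mul_self_pos.mpr this
      omega
    have hone : ∀ i : Fin 24, z i = 1 - 2 * (y i % 2) := by
      intro i
      have h5 : z i * z i - 1 ≤ ∑ i, (z i * z i - 1) :=
        Finset.single_le_sum (fun i _ => hnn i) (Finset.mem_univ i)
      have h6 : z i * z i < 9 := by omega
      have h7 : -3 < z i := by nlinarith
      have h8 : z i < 3 := by nlinarith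
      have h9 := hz2 i
      omega
    have e1 : ∑ i, z i = 24 - 2 * ∑ i : Fin 24, y i % 2 := by
      rw [Finset.sum_congr rfl fun i _ => hone i, Finset.sum_sub_distrib, ← Finset.mul_sum]
      simp
    omega

/-! ### vectors of shape `(∓3, ±1^23)` -/

/-- the sign of a digit -/
def sg (n i : ℕ) : ℤ := 1 - 2 * ((enc n i : ℕ) : ℤ)

lemma sg_cases (n i : ℕ) : (enc n i = 0 ∧ sg n i = 1) ∨ (enc n i = 1 ∧ sg n i = -1) := by
  have := enc_lt n i
  unfold sg
  omega

def fC (p : ℕ × Fin 24) : Fin 24 → ℤ := fun j => if j = p.2 then -3 * sg p.1 j else sg p.1 j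

lemma fC_norm (p : ℕ × Fin 24) : ∑ i, fC p i * fC p i = 32 := by
  have : ∀ i, fC p i * fC p i = 1 + (if i = p.2 then 8 else 0) := by
    intro i
    unfold fC
    rcases sg_cases p.1 i with h | h <;> rw [h.2] <;> split_ifs <;> norm_num
  rw [Finset.sum_congr rfl fun i _ => this i, Finset.sum_add_distrib]
  simp

lemma sum_enc (n : ℕ) : ∑ i : Fin 24, ((enc n i : ℕ) : ℤ) = wt n := by
  rw [Fin.sum_univ_eq_sum_range (fun i => ((enc n i : ℕ) : ℤ)) 24, wt_eq]
  push_cast; rfl

lemma fC_inL (p : ℕ × Fin 24) (hp : p.1 < 4096) : inL (fC p) := by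
  refine ⟨1, fun j => ((enc p.1 j : ℕ) : ℤ) + 2 * (- ((enc p.1 j : ℕ) : ℤ) -
    (if j = (p.2 : ℕ) then sg p.1 j else 0)), ?_, Par_add_two _ (par_enc p.1), ?_⟩
  · intro i
    unfold fC
    dsimp only
    by_cases h : i = p.2
    · rw [if_pos h, if_pos (congrArg Fin.val h)]
      unfold sg; ring
    · rw [if_neg h, if_neg (by intro h'; exact h (Fin.ext h'))]
      unfold sg; ring
  · have e : ∀ i, fC p i = 1 - 2 * ((enc p.1 i : ℕ) : ℤ) + (if i = p.2 then -4 * sg p.1 i else 0) := by
      intro i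
      unfold fC
      split_ifs
      · unfold sg; ring
      · unfold sg; ring
    rw [Finset.sum_congr rfl fun i _ => e i, Finset.sum_add_distrib, Finset.sum_sub_distrib,
      ← Finset.mul_sum, sum_enc]
    simp only [Finset.sum_const, Finset.card_univ, Fintype.card_fin, Finset.sum_ite_eq',
      Finset.mem_univ, if_true]
    have h5 := (wt_check p.1 hp).1
    generalize wt p.1 = W at h5
    simp only [nsmul_eq_mul, mul_one]
    rcases sg_cases p.1 p.2 with h | h <;> rw [h.2] <;> push_cast <;> omega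

lemma fC_inj (p q : ℕ × Fin 24) (hp : p.1 < 4096) (hq : q.1 < 4096) (h : fC p = fC q) : p = q := by
  have h1 : ∀ i : Fin 24, enc p.1 i = enc q.1 i ∧ (i = p.2 ↔ i = q.2) := by
    intro i
    have h2 := congrFun h i
    unfold fC at h2
    have hp' := sg_cases p.1 i
    have hq' := sg_cases q.1 i
    by_cases ha : i = p.2
    · by_cases hb : i = q.2
      · rw [if_pos ha, if_pos hb] at h2
        exact ⟨by omega, fun _ => hb, fun _ => ha⟩
      · rw [if_pos ha, if_neg hb] at h2
        exfalso; omega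
    · by_cases hb : i = q.2
      · rw [if_neg ha, if_pos hb] at h2
        exfalso; omega
      · rw [if_neg ha, if_neg hb] at h2
        exact ⟨by omega, fun h' => absurd h' ha, fun h' => absurd h' hb⟩
  apply Prod.ext
  · apply enc_inj _ _ hp hq
    intro i hi
    exact (h1 ⟨i, hi⟩).1
  · exact ((h1 p.2).2.mp rfl)

@[irreducible] noncomputable def famC : Finset (Fin 24 → ℤ) := (RR ×ˢ univ).image fC

lemma card_famC : famC.card = 98304 := by
  unfold famC
  rw [Finset.card_image_of_injOn, Finset.card_product, card_RR, Finset.card_univ, Fintype.card_fin]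
  intro p hp q hq h
  rw [Finset.mem_coe, Finset.mem_product, mem_RR] at hp hq
  exact fC_inj p q hp.1 hq.1 h

/-! ### vectors of shape `(±4^2, 0^22)` -/

def fA (p : (Fin 24 × Fin 24) × (ℤ × ℤ)) : Fin 24 → ℤ := fun j =>
  (if j = p.1.1 then 4 * p.2.1 else 0) + (if j = p.1.2 then 4 * p.2.2 else 0)

@[irreducible] def idxA : Finset ((Fin 24 × Fin 24) × (ℤ × ℤ)) :=
  (univ.filter (fun p : Fin 24 × Fin 24 => p.1 < p.2)) ×ˢ (({1, -1} : Finset ℤ) ×ˢ {1, -1})

lemma card_idxA : idxA.card = 1104 := by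
  unfold idxA
  rw [Finset.card_product]
  have h1 : (univ.filter (fun p : Fin 24 × Fin 24 => p.1 < p.2)).card = 276 := by decide +kernel
  rw [h1]
  rfl

lemma mem_idxA (p : (Fin 24 × Fin 24) × (ℤ × ℤ)) (hp : p ∈ idxA) :
    p.1.1 < p.1.2 ∧ (p.2.1 = 1 ∨ p.2.1 = -1) ∧ (p.2.2 = 1 ∨ p.2.2 = -1) := by
  unfold idxA at hp
  rw [Finset.mem_product, Finset.mem_filter, Finset.mem_product] at hp
  obtain ⟨⟨_, h1⟩, h2, h3⟩ := hp
  rw [Finset.mem_insert, Finset.mem_singleton] at h2 h3
  exact ⟨h1, h2, h3⟩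

lemma fA_norm (p : (Fin 24 × Fin 24) × (ℤ × ℤ)) (hp : p ∈ idxA) : ∑ i, fA p i * fA p i = 32 := by
  obtain ⟨h1, h2, h3⟩ := mem_idxA p hp
  have : ∀ i, fA p i * fA p i = (if i = p.1.1 then 16 else 0) + (if i = p.1.2 then 16 else 0) := by
    intro i
    unfold fA
    split_ifs with ha hb
    · exact absurd (ha.symm.trans hb) h1.ne
    · rcases h2 with h2 | h2 <;> rw [h2] <;> norm_num
    · rcases h3 with h3 | h3 <;> rw [h3] <;> norm_num
    · norm_num
  rw [Finset.sum_congr rfl fun i _ => this i, Finset.sum_add_distrib]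
  simp

lemma fA_inL (p : (Fin 24 × Fin 24) × (ℤ × ℤ)) (hp : p ∈ idxA) : inL (fA p) := by
  obtain ⟨h1, h2, h3⟩ := mem_idxA p hp
  refine ⟨0, fun j => 0 + 2 * ((if j = (p.1.1 : ℕ) then p.2.1 else 0) +
    (if j = (p.1.2 : ℕ) then p.2.2 else 0)), ?_, Par_add_two _ (Par.const 0), ?_⟩
  · intro i
    unfold fA
    simp only [Fin.ext_iff]
    split_ifs <;> ring
  · unfold fA
    rw [Finset.sum_add_distrib]
    simp only [Finset.sum_ite_eq', Finset.mem_univ, if_true]
    rcases h2 with h2 | h2 <;> rcases h3 with h3 | h3 <;> rw [h2, h3] <;> norm_num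

lemma fA_inj (p q : (Fin 24 × Fin 24) × (ℤ × ℤ)) (hp : p ∈ idxA) (hq : q ∈ idxA)
    (h : fA p = fA q) : p = q := by
  obtain ⟨p1, p2, p3⟩ := mem_idxA p hp
  obtain ⟨q1, q2, q3⟩ := mem_idxA q hq
  have hpv : ∀ i, fA p i ≠ 0 ↔ (i = p.1.1 ∨ i = p.1.2) := by
    intro i
    unfold fA
    split_ifs with ha hb hb
    · exact absurd (ha.symm.trans hb) p1.ne
    · simp [ha]; rcases p2 with h | h <;> simp [h]
    · simp [hb]; rcases p3 with h | h <;> simp [h]
    · simp [ha, hb]
  have hqv : ∀ i, fA q i ≠ 0 ↔ (i = q.1.1 ∨ i = q.1.2) := by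
    intro i
    unfold fA
    split_ifs with ha hb hb
    · exact absurd (ha.symm.trans hb) q1.ne
    · simp [ha]; rcases q2 with h | h <;> simp [h]
    · simp [hb]; rcases q3 with h | h <;> simp [h]
    · simp [ha, hb]
  have e : ∀ i, (i = p.1.1 ∨ i = p.1.2) ↔ (i = q.1.1 ∨ i = q.1.2) := by
    intro i; rw [← hpv, ← hqv, h]
  have e1 := (e p.1.1).mp (Or.inl rfl)
  have e2 := (e p.1.2).mp (Or.inr rfl)
  have e3 := (e q.1.1).mpr (Or.inl rfl)
  have e4 := (e q.1.2).mpr (Or.inr rfl)
  have hfst : p.1.1 = q.1.1 := by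
    simp only [Fin.ext_iff, Fin.lt_def] at *
    omega
  have hsnd : p.1.2 = q.1.2 := by
    simp only [Fin.ext_iff, Fin.lt_def] at *
    omega
  have hs1 : p.2.1 = q.2.1 := by
    have h5 := congrFun h p.1.1
    unfold fA at h5
    rw [if_pos rfl, if_neg p1.ne, if_pos hfst, if_neg (by rw [hfst]; exact q1.ne)] at h5
    omega
  have hs2 : p.2.2 = q.2.2 := by
    have h5 := congrFun h p.1.2
    unfold fA at h5
    rw [if_pos rfl, if_neg p1.ne', if_pos hsnd, if_neg (by rw [hsnd]; exact q1.ne')] at h5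
    omega
  exact Prod.ext (Prod.ext hfst hsnd) (Prod.ext hs1 hs2)

@[irreducible] noncomputable def famA : Finset (Fin 24 → ℤ) := idxA.image fA

lemma card_famA : famA.card = 1104 := by
  unfold famA
  rw [Finset.card_image_of_injOn, card_idxA]
  intro p hp q hq h
  exact fA_inj p q hp hq h

/-! ### vectors of shape `(±2^8, 0^16)` -/

/-- support of a codeword -/
def supp (n : ℕ) : Finset (Fin 24) := univ.filter (fun j : Fin 24 => enc n j = 1)

lemma mem_supp (n : ℕ) (j : Fin 24) : j ∈ supp n ↔ enc n j = 1 := by simp [supp]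

lemma card_supp (n : ℕ) : (supp n).card = wt n := by
  rw [supp, Finset.card_filter, wt_eq, ← Fin.sum_univ_eq_sum_range (fun i => enc n i) 24]
  apply Finset.sum_congr rfl
  intro i _
  have := enc_lt n i
  split_ifs <;> omega

def fB (p : (_ : ℕ) × Finset (Fin 24)) : Fin 24 → ℤ := fun j =>
  if j ∈ supp p.1 then (if j ∈ p.2 then -2 else 2) else 0

@[irreducible] def idxB : Finset ((_ : ℕ) × Finset (Fin 24)) :=
  OO.sigma
    (fun n => (supp n).powerset.filter (fun S => S.card % 2 = 0))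

lemma card_even (s : Finset (Fin 24)) (hs : s.card = 8) :
    (s.powerset.filter (fun S => S.card % 2 = 0)).card = 128 := by
  rw [Finset.card_filter, Finset.sum_powerset_apply_card (fun m => if m % 2 = 0 then 1 else 0), hs]
  decide

lemma card_idxB : idxB.card = 97152 := by
  unfold idxB
  rw [Finset.card_sigma]
  have : ∀ n ∈ OO,
      ((supp n).powerset.filter (fun S => S.card % 2 = 0)).card = 128 := by
    intro n hn
    rw [mem_OO] at hn
    exact card_even _ (by rw [card_supp, hn.2])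
  rw [Finset.sum_congr rfl this, Finset.sum_const, card_OO]
  rfl

lemma mem_idxB (p : (_ : ℕ) × Finset (Fin 24)) (hp : p ∈ idxB) :
    p.1 < 4096 ∧ wt p.1 = 8 ∧ p.2 ⊆ supp p.1 ∧ p.2.card % 2 = 0 := by
  unfold idxB at hp
  rw [Finset.mem_sigma, mem_OO, Finset.mem_filter, Finset.mem_powerset] at hp
  exact ⟨hp.1.1, hp.1.2, hp.2.1, hp.2.2⟩

lemma fB_norm (p : (_ : ℕ) × Finset (Fin 24)) (hp : p ∈ idxB) : ∑ i, fB p i * fB p i = 32 := by
  obtain ⟨h1, h2, h3, h4⟩ := mem_idxB p hp
  have : ∀ i, fB p i * fB p i = if i ∈ supp p.1 then 4 else 0 := by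
    intro i
    unfold fB
    split_ifs <;> norm_num
  rw [Finset.sum_congr rfl fun i _ => this i, Finset.sum_ite_mem, Finset.univ_inter,
    Finset.sum_const, card_supp, h2]
  rfl

lemma fB_inL (p : (_ : ℕ) × Finset (Fin 24)) (hp : p ∈ idxB) : inL (fB p) := by
  obtain ⟨h1, h2, h3, h4⟩ := mem_idxB p hp
  refine ⟨0, fun j => ((enc p.1 j : ℕ) : ℤ) + 2 * (if h : j < 24 then
    (if (⟨j, h⟩ : Fin 24) ∈ p.2 then -1 else 0) else 0), ?_, Par_add_two _ (par_enc p.1), ?_⟩
  · intro i
    unfold fB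
    dsimp only
    rw [dif_pos i.2]
    have := enc_lt p.1 i
    by_cases ha : i ∈ supp p.1
    · have hb := (mem_supp _ _).mp ha
      rw [if_pos ha, hb]
      by_cases hc : i ∈ p.2
      · rw [if_pos hc, if_pos hc]; norm_num
      · rw [if_neg hc, if_neg hc]; norm_num
    · have hb : enc p.1 i = 0 := by
        have : enc p.1 i ≠ 1 := fun h => ha ((mem_supp _ _).mpr h)
        omega
      have hc : i ∉ p.2 := fun h => ha (h3 h)
      rw [if_neg ha, hb, if_neg hc]; norm_num
  · have e : ∀ i, fB p i = (if i ∈ supp p.1 then 2 else 0) + (if i ∈ p.2 then -4 else 0) := by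
      intro i
      unfold fB
      by_cases hc : i ∈ p.2
      · rw [if_pos (h3 hc), if_pos hc, if_pos (h3 hc), if_pos hc]; norm_num
      · rw [if_neg hc, if_neg hc]; ring
    rw [Finset.sum_congr rfl fun i _ => e i, Finset.sum_add_distrib, Finset.sum_ite_mem,
      Finset.sum_ite_mem, Finset.univ_inter, Finset.univ_inter, Finset.sum_const, Finset.sum_const,
      card_supp, h2]
    simp only [nsmul_eq_mul]
    omega

lemma fB_inj (p q : (_ : ℕ) × Finset (Fin 24)) (hp : p ∈ idxB) (hq : q ∈ idxB)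
    (h : fB p = fB q) : p = q := by
  obtain ⟨p1, p2, p3, p4⟩ := mem_idxB p hp
  obtain ⟨q1, q2, q3, q4⟩ := mem_idxB q hq
  have hz : ∀ (r : (_ : ℕ) × Finset (Fin 24)) (i : Fin 24), fB r i ≠ 0 ↔ i ∈ supp r.1 := by
    intro r i; unfold fB; split_ifs <;> simp_all
  have hn : ∀ (r : (_ : ℕ) × Finset (Fin 24)) (i : Fin 24), r.2 ⊆ supp r.1 →
      (fB r i = -2 ↔ i ∈ r.2) := by
    intro r i hr; unfold fB
    by_cases hc : i ∈ r.2
    · rw [if_pos (hr hc), if_pos hc]; simp [hc]
    · rw [if_neg hc]; split_ifs <;> simp [hc]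
  have h1 : p.1 = q.1 := by
    apply enc_inj _ _ p1 q1
    intro i hi
    have e1 := hz p ⟨i, hi⟩
    rw [h, hz q ⟨i, hi⟩, mem_supp, mem_supp] at e1
    have := enc_lt p.1 i
    have := enc_lt q.1 i
    dsimp only at e1
    omega
  have h2 : p.2 = q.2 := by
    ext i
    rw [← hn p i p3, ← hn q i q3, h]
  obtain ⟨a, b⟩ := p
  obtain ⟨c, d⟩ := q
  dsimp only at h1 h2
  subst h1 h2
  rfl

@[irreducible] noncomputable def famB : Finset (Fin 24 → ℤ) := idxB.image fB

lemma card_famB : famB.card = 97152 := by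
  unfold famB
  rw [Finset.card_image_of_injOn, card_idxB]
  intro p hp q hq h
  exact fB_inj p q hp hq h

/-! ### all minimal vectors -/

@[irreducible] noncomputable def roots : Finset (Fin 24 → ℤ) := famA ∪ famB ∪ famC

lemma mem_famA (z : Fin 24 → ℤ) (hz : z ∈ famA) : ∃ p ∈ idxA, fA p = z := by
  unfold famA at hz; exact Finset.mem_image.mp hz

lemma mem_famB (z : Fin 24 → ℤ) (hz : z ∈ famB) : ∃ p ∈ idxB, fB p = z := by
  unfold famB at hz; exact Finset.mem_image.mp hz

lemma mem_famC (z : Fin 24 → ℤ) (hz : z ∈ famC) : ∃ p : ℕ × Fin 24, p.1 < 4096 ∧ fC p = z := by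
  unfold famC at hz
  obtain ⟨p, hp, h⟩ := Finset.mem_image.mp hz
  rw [Finset.mem_product, mem_RR] at hp
  exact ⟨p, hp.1, h⟩

lemma card_roots : roots.card = 196560 := by
  unfold roots
  have hAB : Disjoint famA famB := by
    rw [Finset.disjoint_left]
    intro z hA hB
    obtain ⟨p, hp, rfl⟩ := mem_famA z hA
    obtain ⟨q, hq, h⟩ := mem_famB _ hB
    obtain ⟨p1, p2, p3⟩ := mem_idxA p hp
    have h5 := congrFun h p.1.1
    unfold fA fB at h5
    rw [if_pos (rfl : p.1.1 = p.1.1), if_neg p1.ne] at h5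
    split_ifs at h5 <;> omega
  have hABC : Disjoint (famA ∪ famB) famC := by
    rw [Finset.disjoint_left]
    intro z hAB hC
    obtain ⟨q, hq, h⟩ := mem_famC z hC
    have hodd : z 0 % 2 = 1 := by
      rw [← h]
      unfold fC
      rcases sg_cases q.1 ((0 : Fin 24) : ℕ) with hs | hs <;> rw [hs.2] <;> split_ifs <;> norm_num
    rcases Finset.mem_union.mp hAB with hA | hB
    · obtain ⟨p, hp, h'⟩ := mem_famA z hA
      rw [← h'] at hodd
      unfold fA at hodd
      split_ifs at hodd <;> omega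
    · obtain ⟨p, hp, h'⟩ := mem_famB z hB
      rw [← h'] at hodd
      unfold fB at hodd
      split_ifs at hodd <;> omega
  rw [Finset.card_union_of_disjoint hABC, Finset.card_union_of_disjoint hAB, card_famA, card_famB,
    card_famC]

lemma mem_roots (z : Fin 24 → ℤ) (hz : z ∈ roots) :
    inL z ∧ (∀ i, -8 ≤ z i ∧ z i ≤ 8) ∧ ∑ i, z i * z i = 32 := by
  have h : inL z ∧ ∑ i, z i * z i = 32 := by
    unfold roots at hz
    rcases Finset.mem_union.mp hz with hz | hC
    · rcases Finset.mem_union.mp hz with hA | hB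
      · obtain ⟨p, hp, rfl⟩ := mem_famA z hA
        exact ⟨fA_inL p hp, fA_norm p hp⟩
      · obtain ⟨p, hp, rfl⟩ := mem_famB z hB
        exact ⟨fB_inL p hp, fB_norm p hp⟩
    · obtain ⟨p, hp, rfl⟩ := mem_famC z hC
      exact ⟨fC_inL p hp, fC_norm p⟩
  refine ⟨h.1, ?_, h.2⟩
  intro i
  have h1 : z i * z i ≤ ∑ i, z i * z i :=
    Finset.single_le_sum (f := fun i => z i * z i) (fun i _ => mul_self_nonneg _) (Finset.mem_univ i)
  rw [h.2] at h1
  constructor <;> nlinarith

end Pool.Agent.H105.AKN.Leech
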