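import Pool.Agent.H105.AKN.Leech

/-!
# The minimal vectors of the Leech lattice in a closed hemisphere

With `e = (4, 4, 0, …, 0)`, exactly `144855` of the `196560` minimal vectors `z` satisfy
`⟨z, e⟩ ≥ 0`, that is `z 0 + z 1 ≥ 0`.
-/

namespace Pool.Agent.H105.AKN.Leech

open Finset Golay

set_option linter.constructorNameAsVariable false

/-- the condition of the hemisphere -/
def inH (z : Fin 24 → ℤ) : Prop := 0 ≤ z 0 + z 1

instance (z : Fin 24 → ℤ) : Decidable (inH z) := by unfold inH; infer_instance

/-- the minimal vectors in the hemisphere -/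
@[irreducible] noncomputable def hemi : Finset (Fin 24 → ℤ) := roots.filter inH

lemma mem_hemi (z : Fin 24 → ℤ) : z ∈ hemi ↔ z ∈ roots ∧ 0 ≤ z 0 + z 1 := by
  unfold hemi
  rw [Finset.mem_filter]
  rfl

/-! ### first shape -/

lemma countA : (idxA.filter (fun p => inH (fA p))).card = 1015 := by
  unfold idxA
  decide +kernel

lemma card_hA : (famA.filter inH).card = 1015 := by
  rw [← countA]
  unfold famA
  rw [Finset.filter_image, Finset.card_image_of_injOn]
  intro p hp q hq h
  rw [Finset.mem_coe, Finset.mem_filter] at hp hq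
  exact fA_inj p q hp.1 hq.1 h

/-! ### third shape -/

/-- number of positions -/
def gC (a b : ℕ) : ℕ := if a = 0 then (if b = 0 then 22 else 23) else (if b = 0 then 23 else 2)

lemma gC_aux : ∀ a b : Bool,
    (univ.filter (fun i : Fin 24 => 0 ≤ (if (0 : Fin 24) = i then -3 * (cond a (-1) 1 : ℤ) else
      cond a (-1) 1) + (if (1 : Fin 24) = i then -3 * (cond b (-1) 1 : ℤ) else cond b (-1) 1))).card =
      gC a.toNat b.toNat := by decide +kernel

lemma countC_fiber (n : ℕ) :
    (univ.filter (fun i : Fin 24 => inH (fC (n, i)))).card = gC (enc n 0) (enc n 1) := by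
  have h0 := sg_cases n 0
  have h1 := sg_cases n 1
  have key : ∀ a b : Bool, sg n 0 = cond a (-1) 1 → sg n 1 = cond b (-1) 1 →
      enc n 0 = a.toNat → enc n 1 = b.toNat →
      (univ.filter (fun i : Fin 24 => inH (fC (n, i)))).card = gC (enc n 0) (enc n 1) := by
    intro a b ha hb ha' hb'
    rw [ha', hb', ← gC_aux]
    congr 1
    apply Finset.filter_congr
    intro i _
    unfold inH fC
    have e0 : ((0 : Fin 24) : ℕ) = 0 := rfl
    have e1 : ((1 : Fin 24) : ℕ) = 1 := rfl
    dsimp only
    rw [e0, e1, ha, hb]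
  rcases h0 with h0 | h0 <;> rcases h1 with h1 | h1
  · exact key false false h0.2 h1.2 h0.1 h1.1
  · exact key false true h0.2 h1.2 h0.1 h1.1
  · exact key true false h0.2 h1.2 h0.1 h1.1
  · exact key true true h0.2 h1.2 h0.1 h1.1

lemma sum_gC : ((List.range 4096).map (fun n => gC (n % 2) (n / 2 % 2))).sum = 71680 := by
  decide +kernel

lemma enc0 (n : ℕ) : enc n 0 = n % 2 := by simp [enc]
lemma enc1 (n : ℕ) : enc n 1 = n / 2 % 2 := by simp [enc]

lemma countC : ((RR ×ˢ (univ : Finset (Fin 24))).filter (fun p => inH (fC p))).card = 71680 := by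
  rw [Finset.card_filter, Finset.sum_product]
  have : ∀ n ∈ RR, ∑ i : Fin 24, (if inH (fC (n, i)) then 1 else 0) = gC (n % 2) (n / 2 % 2) := by
    intro n _
    rw [← Finset.card_filter, countC_fiber, enc0, enc1]
  rw [Finset.sum_congr rfl this]
  unfold RR
  rw [sum_range_list, sum_gC]

lemma card_hC : (famC.filter inH).card = 71680 := by
  rw [← countC]
  unfold famC
  rw [Finset.filter_image, Finset.card_image_of_injOn]
  intro p hp q hq h
  rw [Finset.mem_coe, Finset.mem_filter, Finset.mem_product, mem_RR] at hp hq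
  exact fC_inj p q hp.1.1 hq.1.1 h

/-! ### second shape -/

lemma card_even7 (s : Finset (Fin 24)) (hs : s.card = 7) :
    (s.powerset.filter (fun S => S.card % 2 = 0)).card = 64 := by
  rw [Finset.card_filter, Finset.sum_powerset_apply_card (fun m => if m % 2 = 0 then 1 else 0), hs]
  decide

lemma card_even6 (s : Finset (Fin 24)) (hs : s.card = 6) :
    (s.powerset.filter (fun S => S.card % 2 = 0)).card = 32 := by
  rw [Finset.card_filter, Finset.sum_powerset_apply_card (fun m => if m % 2 = 0 then 1 else 0), hs]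
  decide

/-- even subsets -/
def ev (s : Finset (Fin 24)) : Finset (Finset (Fin 24)) :=
  s.powerset.filter (fun S => S.card % 2 = 0)

lemma mem_ev (s S : Finset (Fin 24)) : S ∈ ev s ↔ S ⊆ s ∧ S.card % 2 = 0 := by
  unfold ev; rw [Finset.mem_filter, Finset.mem_powerset]

lemma ev_not (s : Finset (Fin 24)) (a : Fin 24) :
    (ev s).filter (fun S => a ∉ S) = ev (s.erase a) := by
  ext S
  rw [Finset.mem_filter, mem_ev, mem_ev, Finset.subset_erase]
  tauto

lemma ev_not2 (s : Finset (Fin 24)) (a b : Fin 24) :
    ((ev s).filter (fun S => a ∉ S ∧ b ∉ S)) = ev ((s.erase a).erase b) := by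
  ext S
  rw [Finset.mem_filter, mem_ev, mem_ev, Finset.subset_erase, Finset.subset_erase]
  tauto

/-- number of sign patterns -/
def gB (a b : ℕ) : ℕ := if a = 0 then (if b = 0 then 128 else 64) else (if b = 0 then 64 else 96)

lemma countB_fiber (n : ℕ) (hn : wt n = 8) :
    ((ev (supp n)).filter (fun S => inH (fB ⟨n, S⟩))).card = gB (enc n 0) (enc n 1) := by
  have hs : (supp n).card = 8 := by rw [card_supp, hn]
  have h8 : (ev (supp n)).card = 128 := card_even _ hs
  have m0 := mem_supp n 0
  have m1 := mem_supp n 1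
  have e0 : ((0 : Fin 24) : ℕ) = 0 := rfl
  have e1 : ((1 : Fin 24) : ℕ) = 1 := rfl
  rw [e0] at m0
  rw [e1] at m1
  have l0 := enc_lt n 0
  have l1 := enc_lt n 1
  have h01 : (0 : Fin 24) ≠ 1 := by decide
  by_cases a0 : (0 : Fin 24) ∈ supp n <;> by_cases a1 : (1 : Fin 24) ∈ supp n
  · have c0 := m0.mp a0
    have c1 := m1.mp a1
    have hfil : (ev (supp n)).filter (fun S => inH (fB ⟨n, S⟩)) =
        (ev (supp n)).filter (fun S => (0 : Fin 24) ∉ S ∨ (1 : Fin 24) ∉ S) := by
      apply Finset.filter_congr
      intro S _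
      unfold inH fB
      dsimp only
      rw [if_pos a0, if_pos a1]
      by_cases s0 : (0 : Fin 24) ∈ S <;> by_cases s1 : (1 : Fin 24) ∈ S <;> simp [s0, s1]
    have hu := Finset.card_union_add_card_inter ((ev (supp n)).filter (fun S => (0 : Fin 24) ∉ S))
      ((ev (supp n)).filter (fun S => (1 : Fin 24) ∉ S))
    rw [← Finset.filter_or, ← Finset.filter_and, ev_not, ev_not, ev_not2] at hu
    have k0 : (ev ((supp n).erase 0)).card = 64 :=
      card_even7 _ (by rw [Finset.card_erase_of_mem a0, hs])
    have k1 : (ev ((supp n).erase 1)).card = 64 :=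
      card_even7 _ (by rw [Finset.card_erase_of_mem a1, hs])
    have k01 : (ev (((supp n).erase 0).erase 1)).card = 32 :=
      card_even6 _ (by
        rw [Finset.card_erase_of_mem (Finset.mem_erase.mpr ⟨h01.symm, a1⟩),
          Finset.card_erase_of_mem a0, hs])
    rw [hfil, c0, c1]
    rw [k0, k1, k01] at hu
    have : gB 1 1 = 96 := rfl
    rw [this]
    omega
  · have c0 := m0.mp a0
    have c1 : enc n 1 = 0 := by
      have : enc n 1 ≠ 1 := fun h => a1 (m1.mpr h)
      omega
    have hfil : (ev (supp n)).filter (fun S => inH (fB ⟨n, S⟩)) =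
        (ev (supp n)).filter (fun S => (0 : Fin 24) ∉ S) := by
      apply Finset.filter_congr
      intro S _
      unfold inH fB
      dsimp only
      rw [if_pos a0, if_neg a1]
      by_cases s0 : (0 : Fin 24) ∈ S <;> simp [s0]
    rw [hfil, ev_not, c0, c1]
    exact card_even7 _ (by rw [Finset.card_erase_of_mem a0, hs])
  · have c1 := m1.mp a1
    have c0 : enc n 0 = 0 := by
      have : enc n 0 ≠ 1 := fun h => a0 (m0.mpr h)
      omega
    have hfil : (ev (supp n)).filter (fun S => inH (fB ⟨n, S⟩)) =
        (ev (supp n)).filter (fun S => (1 : Fin 24) ∉ S) := by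
      apply Finset.filter_congr
      intro S _
      unfold inH fB
      dsimp only
      rw [if_neg a0, if_pos a1]
      by_cases s1 : (1 : Fin 24) ∈ S <;> simp [s1]
    rw [hfil, ev_not, c0, c1]
    exact card_even7 _ (by rw [Finset.card_erase_of_mem a1, hs])
  · have c0 : enc n 0 = 0 := by
      have : enc n 0 ≠ 1 := fun h => a0 (m0.mpr h)
      omega
    have c1 : enc n 1 = 0 := by
      have : enc n 1 ≠ 1 := fun h => a1 (m1.mpr h)
      omega
    have hfil : (ev (supp n)).filter (fun S => inH (fB ⟨n, S⟩)) = ev (supp n) := by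
      apply Finset.filter_true_of_mem
      intro S _
      unfold inH fB
      dsimp only
      rw [if_neg a0, if_neg a1]
      norm_num
    rw [hfil, c0, c1, h8]
    rfl

lemma sum_gB : ((List.range 4096).map (fun n => if wt n = 8 then gB (n % 2) (n / 2 % 2) else 0)).sum
    = 72160 := by
  decide +kernel

lemma countB : (idxB.filter (fun p => inH (fB p))).card = 72160 := by
  have h1 : idxB.filter (fun p => inH (fB p)) =
      OO.sigma (fun n => (ev (supp n)).filter (fun S => inH (fB ⟨n, S⟩))) := by
    ext p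
    obtain ⟨n, S⟩ := p
    unfold idxB
    simp only [Finset.mem_filter, Finset.mem_sigma, mem_ev, Finset.mem_powerset]
    tauto
  rw [h1, Finset.card_sigma]
  have : ∀ n ∈ OO, ((ev (supp n)).filter (fun S => inH (fB ⟨n, S⟩))).card =
      gB (n % 2) (n / 2 % 2) := by
    intro n hn
    rw [mem_OO] at hn
    rw [countB_fiber n hn.2, enc0, enc1]
  rw [Finset.sum_congr rfl this]
  unfold OO
  rw [Finset.sum_filter, sum_range_list, sum_gB]

lemma card_hB : (famB.filter inH).card = 72160 := by
  rw [← countB]
  unfold famB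
  rw [Finset.filter_image, Finset.card_image_of_injOn]
  intro p hp q hq h
  rw [Finset.mem_coe, Finset.mem_filter] at hp hq
  exact fB_inj p q hp.1 hq.1 h

/-! ### the hemisphere -/

lemma disj_AB : Disjoint famA famB := by
  rw [Finset.disjoint_left]
  intro z hA hB
  obtain ⟨p, hp, rfl⟩ := mem_famA z hA
  obtain ⟨q, hq, h⟩ := mem_famB _ hB
  obtain ⟨p1, p2, p3⟩ := mem_idxA p hp
  have h5 := congrFun h p.1.1
  unfold fA fB at h5
  rw [if_pos (rfl : p.1.1 = p.1.1), if_neg p1.ne] at h5
  split_ifs at h5 <;> omega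

lemma disj_ABC : Disjoint (famA ∪ famB) famC := by
  rw [Finset.disjoint_left]
  intro z hAB hC
  obtain ⟨q, hq, h⟩ := mem_famC z hC
  have hodd : z 0 % 2 = 1 := by
    rw [← h]
    unfold fC
    rcases sg_cases q.1 ((0 : Fin 24) : ℕ) with hs | hs <;> rw [hs.2] <;> split_ifs <;> norm_num
  rcases Finset.mem_union.mp hAB with hA | hB
  · obtain ⟨p, hp, h'⟩ := mem_famA z hA
    rw [← h'] at hodd
    unfold fA at hodd
    split_ifs at hodd <;> omega
  · obtain ⟨p, hp, h'⟩ := mem_famB z hB
    rw [← h'] at hodd
    unfold fB at hodd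
    split_ifs at hodd <;> omega

/-- exactly `144855` minimal vectors lie in the hemisphere of the minimal vector `(4,4,0,…,0)` -/
theorem card_hemi : hemi.card = 144855 := by
  unfold hemi roots
  rw [Finset.filter_union, Finset.filter_union, Finset.card_union_of_disjoint,
    Finset.card_union_of_disjoint, card_hA, card_hB, card_hC]
  · exact Finset.disjoint_filter_filter disj_AB
  · rw [← Finset.filter_union]
    exact Finset.disjoint_filter_filter disj_ABC

end Pool.Agent.H105.AKN.Leech
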