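import Pool.Agent.H104.AKN.LowerGen
import Pool.Agent.H105.AKN.Leech

/-!
# Finite pieces of the Leech lattice
-/

namespace Pool.Agent.H105.AKN.Leech

open Finset Metric Pool.Agent.H104.AKN

/-- lattice points in the unit cell -/
@[irreducible] noncomputable def cell : Finset (Fin 24 → ℤ) :=
  letI : DecidablePred inL := Classical.decPred inL
  (Fintype.piFinset fun _ => Finset.Ico (0 : ℤ) 8).filter inL

lemma mem_cell (z : Fin 24 → ℤ) : z ∈ cell ↔ (∀ i, 0 ≤ z i ∧ z i < 8) ∧ inL z := by
  unfold cell
  rw [@Finset.mem_filter, Fintype.mem_piFinset]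
  simp only [Finset.mem_Ico]

lemma inL_zero : inL 0 :=
  ⟨0, fun _ => 0, fun i => by simp, Golay.Par.const 0, by simp⟩

lemma zero_mem_cell : (0 : Fin 24 → ℤ) ∈ cell := by
  rw [mem_cell]
  exact ⟨fun i => by simp, inL_zero⟩

/-- translates of the cell -/
@[irreducible] noncomputable def box (a b : ℤ) : Finset (Fin 24 → ℤ) :=
  ((Fintype.piFinset fun _ => Finset.Ico a b) ×ˢ cell).image (fun p i => 8 * p.1 i + p.2 i)

lemma card_box (a b : ℤ) : (box a b).card = (b - a).toNat ^ 24 * cell.card := by
  unfold box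
  rw [Finset.card_image_of_injOn, Finset.card_product, Fintype.card_piFinset_const, Int.card_Ico]
  · intro p hp q hq h
    rw [Finset.mem_coe, Finset.mem_product, mem_cell] at hp hq
    have h1 : ∀ i, p.1 i = q.1 i ∧ p.2 i = q.2 i := by
      intro i
      have h2 := congrFun h i
      have h3 := hp.2.1 i
      have h4 := hq.2.1 i
      dsimp only at h2
      omega
    exact Prod.ext (funext fun i => (h1 i).1) (funext fun i => (h1 i).2)

lemma mem_box (a b : ℤ) (z : Fin 24 → ℤ) : z ∈ box a b ↔ inL z ∧ ∀ i, 8 * a ≤ z i ∧ z i < 8 * b := by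
  unfold box
  rw [Finset.mem_image]
  constructor
  · rintro ⟨p, hp, rfl⟩
    rw [Finset.mem_product, Fintype.mem_piFinset, mem_cell] at hp
    obtain ⟨hp1, hp2⟩ := hp
    refine ⟨?_, ?_⟩
    · have := inL_period p.2 p.1 hp2.2
      have e : (fun i => p.2 i + 8 * p.1 i) = (fun i => 8 * p.1 i + p.2 i) := by
        funext i; ring
      rwa [e] at this
    · intro i
      have h3 := hp1 i
      have h4 := hp2.1 i
      rw [Finset.mem_Ico] at h3
      dsimp only
      omega
  · rintro ⟨hz, hb⟩
    refine ⟨(fun i => z i / 8, fun i => z i % 8), ?_, ?_⟩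
    · rw [Finset.mem_product, Fintype.mem_piFinset, mem_cell]
      refine ⟨?_, ?_, ?_⟩
      · intro i
        have := hb i
        rw [Finset.mem_Ico]
        dsimp only
        omega
      · intro i
        dsimp only
        omega
      · have := inL_period z (fun i => - (z i / 8)) hz
        have e : (fun i => z i + 8 * (fun i => - (z i / 8)) i) = (fun i => z i % 8) := by
          funext i; dsimp only; omega
        rwa [e] at this
    · funext i
      dsimp only
      omega

lemma lower_packing (M : ℕ) (hM : 3 ≤ M) :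
    ∃ P : Packing 24, (196560 : ℝ) * (((M : ℝ) - 2) / M) ^ 24 ≤ P.avg := by
  have hc : 0 < cell.card := Finset.card_pos.mpr ⟨0, zero_mem_cell⟩
  have hS : (box 0 M).Nonempty := by
    rw [← Finset.card_pos, card_box]
    have : 0 < ((M : ℤ) - 0).toNat := by omega
    positivity
  have hI : box 1 (M - 1) ⊆ box 0 M := by
    intro z hz
    rw [mem_box] at hz ⊢
    refine ⟨hz.1, fun i => ?_⟩
    have := hz.2 i
    omega
  obtain ⟨P, hP⟩ := exists_packing (box 0 M) hS 32 (by norm_num) (by
      intro z hz z' hz' h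
      rw [mem_box] at hz hz'
      have h1 := norm_inL _ (inL_sub z z' hz.1 hz'.1) (by
        intro h2
        apply h
        funext i
        have := congrFun h2 i
        simp only [Pi.zero_apply] at this
        omega)
      exact_mod_cast h1) (box 1 (M - 1)) hI 196560 (by
      intro z hz
      rw [mem_box] at hz
      refine ⟨roots.image (fun ρ i => z i + ρ i), ?_, ?_, ?_⟩
      · intro z' hz'
        rw [Finset.mem_image] at hz'
        obtain ⟨ρ, hρ, rfl⟩ := hz'
        have h3 := mem_roots ρ hρ
        rw [mem_box]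
        refine ⟨inL_add z ρ hz.1 h3.1, ?_⟩
        intro i
        have h4 := hz.2 i
        have h5 := h3.2.1 i
        omega
      · rw [Finset.card_image_of_injective, card_roots]
        intro ρ ρ' h
        funext i
        have := congrFun h i
        dsimp only at this
        omega
      · intro z' hz'
        rw [Finset.mem_image] at hz'
        obtain ⟨ρ, hρ, rfl⟩ := hz'
        have h3 := (mem_roots ρ hρ).2.2
        push_cast
        rw [← h3]
        apply Finset.sum_congr rfl
        intro i _
        ring)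
  refine ⟨P, le_trans (le_of_eq ?_) hP⟩
  rw [card_box, card_box]
  have e1 : ((M : ℤ) - 1 - 1).toNat = M - 2 := by omega
  have e2 : ((M : ℤ) - 0).toNat = M := by omega
  rw [e1, e2]
  have hM' : (0 : ℝ) < M := by exact_mod_cast (by omega : 0 < M)
  have hc' : (0 : ℝ) < cell.card := by exact_mod_cast hc
  push_cast
  rw [Nat.cast_sub (by omega)]
  field_simp
  push_cast
  ring

lemma le_of_forall_lower (K : ℝ) (h : ∀ P : Packing 24, P.avg ≤ K) : 196560 ≤ K := by
  have h1 : Filter.Tendsto (fun M : ℕ => (196560 : ℝ) * (1 - 2 * ((M : ℝ))⁻¹) ^ 24) Filter.atTop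
      (nhds (196560 * (1 - 2 * 0) ^ 24)) := by
    apply Filter.Tendsto.const_mul
    apply Filter.Tendsto.pow
    apply Filter.Tendsto.const_sub
    apply Filter.Tendsto.const_mul
    exact tendsto_inv_atTop_nhds_zero_nat
  have h2 : (196560 : ℝ) * (1 - 2 * 0) ^ 24 ≤ K := by
    apply le_of_tendsto h1
    filter_upwards [Filter.eventually_ge_atTop 3] with M hM
    obtain ⟨P, hP⟩ := lower_packing M hM
    refine le_trans (le_of_eq ?_) (hP.trans (h P))
    have hM' : (0 : ℝ) < M := by exact_mod_cast (by omega : 0 < M)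
    congr 1
    congr 1
    field_simp
  linarith

/-- the minimal vectors as a kissing configuration -/
lemma exists_kissing : ∃ X : Finset (EuclideanSpace ℝ (Fin 24)), IsKissing 24 X ∧ X.card = 196560 := by
  classical
  have h2 : (0 : ℝ) < Real.sqrt 8 := Real.sqrt_pos.mpr (by norm_num)
  have h22 : Real.sqrt 8 ^ 2 = 8 := Real.sq_sqrt (by norm_num)
  set f : (Fin 24 → ℤ) → EuclideanSpace ℝ (Fin 24) := fun z => WithLp.toLp 2
    (fun i => (z i : ℝ) / Real.sqrt 8) with hf
  have hd : ∀ z z' : Fin 24 → ℤ, dist (f z) (f z') ^ 2 =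
      ((∑ i, (z i - z' i) * (z i - z' i) : ℤ) : ℝ) / 8 := by
    intro z z'
    rw [sqdist_sum]
    push_cast
    rw [Finset.sum_div]
    apply Finset.sum_congr rfl
    intro i _
    simp only [hf]
    rw [← sub_div, div_pow, h22]
    ring
  have hinj : Function.Injective f := by
    intro z z' h
    funext i
    have h3 : (f z) i = (f z') i := by rw [h]
    simp only [hf] at h3
    have h4 : ((z i : ℝ)) = z' i := by
      field_simp at h3
      exact h3
    exact_mod_cast h4
  refine ⟨roots.image f, ⟨?_, ?_⟩, ?_⟩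
  · intro x hx
    rw [Finset.mem_image] at hx
    obtain ⟨ρ, hρ, rfl⟩ := hx
    have h3 : f 0 = 0 := by
      ext i
      simp [hf]
    have h4 := hd ρ 0
    simp only [Pi.zero_apply, sub_zero] at h4
    rw [(mem_roots ρ hρ).2.2, h3] at h4
    have h5 : dist (f ρ) 0 ^ 2 = (1 + 1) ^ 2 := by rw [h4]; norm_num
    exact (pow_left_inj₀ dist_nonneg (by norm_num) (by norm_num)).mp h5
  · intro x hx y hy hxy
    rw [Finset.mem_image] at hx hy
    obtain ⟨ρ, hρ, rfl⟩ := hx
    obtain ⟨ρ', hρ', rfl⟩ := hy
    apply disjoint_of_dist_ge _ _ _ _ one_pos one_pos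
    apply le_of_sq_le_sq _ dist_nonneg
    rw [hd]
    have h1 := norm_inL _ (inL_sub ρ ρ' (mem_roots ρ hρ).1 (mem_roots ρ' hρ').1) (by
        intro h2
        apply hxy
        congr 1
        funext i
        have := congrFun h2 i
        simp only [Pi.zero_apply] at this
        omega)
    have h1' : ((32 : ℤ) : ℝ) ≤ ((∑ i, (ρ i - ρ' i) * (ρ i - ρ' i) : ℤ) : ℝ) := by
      exact_mod_cast h1
    push_cast at h1' ⊢
    linarith
  · rw [Finset.card_image_of_injective _ hinj, card_roots]

end Pool.Agent.H105.AKN.Leech
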